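import Mathlib

/-!
Abstract index set of the 29 essential coordinates for the counterexample, standard monomials,
and the statements of the modules K (key lemma) and C (counting).
-/

namespace Pool.Agent.Helper66.Ebba

/-- The 29 coordinates of the tangent space of `X_w` at `e_v` in our example. -/
inductive Var : Type
  | z (s : Fin 2) : Var
  | A (r : Fin 4) (s : Fin 2) : Var
  | xi (c : Fin 3) : Var
  | Y (s : Fin 2) (c : Fin 3) : Var
  | o (k : Fin 10) : Var
  deriving DecidableEq, Fintype

/-- Standard monomials: not divisible by `A r 0 * z 0`, nor by `z 1 * A r 1 * A r' 0`, `r < r'`. -/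
def Std (m : Var →₀ ℕ) : Prop :=
  (∀ r, m (Var.A r 0) = 0 ∨ m (Var.z 0) = 0) ∧
  (∀ r r', r < r' → m (Var.z 1) = 0 ∨ m (Var.A r 1) = 0 ∨ m (Var.A r' 0) = 0)

instance : DecidablePred Std := fun m => by unfold Std; infer_instance

end Pool.Agent.Helper66.Ebba
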