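import Mathlib

/-!
Definitions for MP_ebba11_co: tangent cones of Schubert varieties in the type A flag variety.
-/

namespace Pool.Agent.Helper66.Ebba

open MvPolynomial

/-- The positions strictly below the diagonal: the coordinates of the affine chart
`v B⁻ B / B` around the torus fixed point `e_v` of `GL_n / B`. -/
abbrev Pos (n : ℕ) : Type := {p : Fin n × Fin n // p.2 < p.1}

/-- The lower unitriangular matrix with the given entries below the diagonal. -/
def lowerUni {n : ℕ} {R : Type*} [CommRing R] (x : Pos n → R) : Matrix (Fin n) (Fin n) R :=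
  fun i j => if h : j < i then x ⟨(i, j), h⟩ else if i = j then 1 else 0

/-- The permutation matrix of `w`, with entry `1` in row `w j` of column `j`. -/
def permMat {n : ℕ} (w : Equiv.Perm (Fin n)) : Matrix (Fin n) (Fin n) ℂ :=
  fun i j => if i = w j then 1 else 0

/-- Membership in the Borel subgroup `B` of invertible upper triangular matrices. -/
def IsBorel {n : ℕ} (b : Matrix (Fin n) (Fin n) ℂ) : Prop :=
  (∀ i j, j < i → b i j = 0) ∧ ∀ i, b i i ≠ 0

/-- The double coset `B w B`. -/
def bruhatCell {n : ℕ} (w : Equiv.Perm (Fin n)) : Set (Matrix (Fin n) (Fin n) ℂ) :=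
  {g | ∃ b₁ b₂ : Matrix (Fin n) (Fin n) ℂ, IsBorel b₁ ∧ IsBorel b₂ ∧ g = b₁ * permMat w * b₂}

/-- The trace of the Schubert cell `B w B / B` on the affine chart around `e_v`, in the
coordinates `x ↦ v · (lower unitriangular matrix of x) · B`. -/
def cellInChart {n : ℕ} (v w : Equiv.Perm (Fin n)) : Set (Pos n → ℂ) :=
  {x | permMat v * lowerUni x ∈ bruhatCell w}

/-- The ideal of the Schubert variety `X_w` (closure of the cell, reduced structure) in the
coordinate ring of the chart around `e_v`. -/
noncomputable def schubertIdeal {n : ℕ} (v w : Equiv.Perm (Fin n)) :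
    Ideal (MvPolynomial (Pos n) ℂ) :=
  MvPolynomial.vanishingIdeal ℂ (cellInChart v w)

/-- The maximal ideal of the origin (the point `e_v`) in the coordinate ring of the chart. -/
noncomputable abbrev originIdeal (n : ℕ) : Ideal (MvPolynomial (Pos n) ℂ) :=
  RingHom.ker (MvPolynomial.constantCoeff : MvPolynomial (Pos n) ℂ →+* ℂ)

instance originIdeal_isPrime (n : ℕ) : (originIdeal n).IsPrime :=
  RingHom.ker_isPrime _

/-- `dim_ℂ A / (A ∩ B)` for two subspaces of a complex vector space. -/
noncomputable def quotDim {V : Type} [AddCommGroup V] [Module ℂ V] (A B : Submodule ℂ V) : ℕ :=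
  Module.finrank ℂ (A ⧸ B.submoduleOf A)

/-- `dim_ℂ (m^i / m^(i+1))` for an ideal `m` of a `ℂ`-algebra. -/
noncomputable def gradedDim {R : Type} [CommRing R] [Algebra ℂ R] (m : Ideal R) (i : ℕ) : ℕ :=
  quotDim ((m ^ i).restrictScalars ℂ) ((m ^ (i + 1)).restrictScalars ℂ)

/-- `dim_ℂ (m̄^i / m̄^(i+1))` for the image `m̄` of the ideal `m` in the quotient ring `L / J`. -/
noncomputable def quotGradedDim {L : Type} [CommRing L] [Algebra ℂ L] (m J : Ideal L)
    (i : ℕ) : ℕ :=
  gradedDim (m.map (Ideal.Quotient.mk J)) i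

/-- The Hilbert function `dim_ℂ (m^i / m^(i+1))` of the local ring `S_p / I S_p` with its
maximal ideal `m`. -/
noncomputable def localHilb {S : Type} [CommRing S] [Algebra ℂ S] (p : Ideal S) [p.IsPrime]
    (I : Ideal S) (i : ℕ) : ℕ :=
  quotGradedDim (IsLocalRing.maximalIdeal (Localization.AtPrime p))
    (I.map (algebraMap S (Localization.AtPrime p))) i

/-- The Hilbert function `dim_ℂ (m^i / m^(i+1))` of the local ring `O_{e_v, X_w}`, the
localization at the origin of the coordinate ring of the chart, modulo the ideal of `X_w`. -/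
noncomputable def hilb {n : ℕ} (v w : Equiv.Perm (Fin n)) (i : ℕ) : ℕ :=
  localHilb (originIdeal n) (schubertIdeal v w) i

/-- The length of `w`: its number of inversions. -/
def len {n : ℕ} (w : Equiv.Perm (Fin n)) : ℕ :=
  (Finset.univ.filter fun p : Fin n × Fin n => p.1 < p.2 ∧ w p.2 < w p.1).card

/-- The coefficient of `q^j` in `H_{v,w}(q) = (1-q)^{ℓ(w)} · ∑ dim (m^i/m^(i+1)) q^i`. -/
noncomputable def hCoeff {n : ℕ} (v w : Equiv.Perm (Fin n)) (j : ℕ) : ℤ :=
  PowerSeries.coeff j
    ((1 - PowerSeries.X) ^ len w * PowerSeries.mk fun i => (hilb v w i : ℤ))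

/-- Bruhat order on `S_n` (rank matrix criterion). -/
def BruhatLE {n : ℕ} (v w : Equiv.Perm (Fin n)) : Prop :=
  ∀ p q : Fin n, (Finset.univ.filter fun i : Fin n => i ≤ p ∧ q ≤ v i).card ≤
    (Finset.univ.filter fun i : Fin n => i ≤ p ∧ q ≤ w i).card

/-- A sequence is unimodal if it is nondecreasing up to some index and nonincreasing afterwards. -/
def Unimodal (a : ℕ → ℤ) : Prop :=
  ∃ k, (∀ j < k, a j ≤ a (j + 1)) ∧ ∀ j, k ≤ j → a (j + 1) ≤ a j

end Pool.Agent.Helper66.Ebba
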