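import Mathlib
import Pool.Agent.Helper66.EbbaDefs

/-!
Facts about the Bruhat cell of `w = 6 7 8 9 10 1 2 3 4 5`.
-/

namespace Pool.Agent.Helper66.Ebba

open Matrix

theorem IsBorel.blockTriangular {n : ℕ} {b : Matrix (Fin n) (Fin n) ℂ} (h : IsBorel b) :
    b.BlockTriangular id := fun i j hij => h.1 i j hij

theorem IsBorel.isUnit_det {n : ℕ} {b : Matrix (Fin n) (Fin n) ℂ} (h : IsBorel b) :
    IsUnit b.det := by
  rw [Matrix.det_of_upperTriangular h.blockTriangular]
  exact isUnit_iff_ne_zero.mpr (Finset.prod_ne_zero_iff.mpr fun i _ => h.2 i)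

theorem isBorel_of {n : ℕ} {b : Matrix (Fin n) (Fin n) ℂ} (h : b.BlockTriangular id)
    (hu : IsUnit b.det) : IsBorel b := by
  refine ⟨fun i j hij => h hij, fun i => ?_⟩
  rw [Matrix.det_of_upperTriangular h, isUnit_iff_ne_zero, Finset.prod_ne_zero_iff] at hu
  exact hu i (Finset.mem_univ i)

theorem IsBorel.inv {n : ℕ} {b : Matrix (Fin n) (Fin n) ℂ} (h : IsBorel b) : IsBorel b⁻¹ := by
  have hu := h.isUnit_det
  haveI : Invertible b := Matrix.invertibleOfIsUnitDet b hu
  refine isBorel_of (Matrix.blockTriangular_inv_of_blockTriangular h.blockTriangular) ?_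
  exact (Matrix.isUnit_nonsing_inv_det_iff).mpr hu

theorem IsBorel.mul {n : ℕ} {b c : Matrix (Fin n) (Fin n) ℂ} (hb : IsBorel b) (hc : IsBorel c) :
    IsBorel (b * c) := by
  refine isBorel_of (hb.blockTriangular.mul hc.blockTriangular) ?_
  rw [Matrix.det_mul]
  exact hb.isUnit_det.mul hc.isUnit_det

/-- the permutation `v = 1 4 3 2 5 6 10 9 8 7` -/
def v10 : Equiv.Perm (Fin 10) where
  toFun := ![0, 3, 2, 1, 4, 5, 9, 8, 7, 6]
  invFun := ![0, 3, 2, 1, 4, 5, 9, 8, 7, 6]
  left_inv := by decide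
  right_inv := by decide

/-- the permutation `w = 6 7 8 9 10 1 2 3 4 5` -/
def w10 : Equiv.Perm (Fin 10) where
  toFun := ![5, 6, 7, 8, 9, 0, 1, 2, 3, 4]
  invFun := ![5, 6, 7, 8, 9, 0, 1, 2, 3, 4]
  left_inv := by decide
  right_inv := by decide

theorem v10_v10 (i : Fin 10) : v10 (v10 i) = i := by revert i; decide
theorem w10_w10 (i : Fin 10) : w10 (w10 i) = i := by revert i; decide

theorem permMat_mul_apply {n : ℕ} (v : Equiv.Perm (Fin n)) (M : Matrix (Fin n) (Fin n) ℂ)
    (i j : Fin n) : (permMat v * M) i j = M (v.symm i) j := by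
  rw [Matrix.mul_apply, Finset.sum_eq_single (v.symm i)]
  · simp [permMat]
  · intro k _ hk
    have : i ≠ v k := fun h => hk (by simp [h])
    simp [permMat, this]
  · simp

theorem mul_permMat_apply {n : ℕ} (v : Equiv.Perm (Fin n)) (M : Matrix (Fin n) (Fin n) ℂ)
    (i j : Fin n) : (M * permMat v) i j = M i (v j) := by
  rw [Matrix.mul_apply, Finset.sum_eq_single (v j)]
  · simp [permMat]
  · intro k _ hk
    simp [permMat, hk]
  · simp

theorem permMat_w_mul_self : permMat w10 * permMat w10 = 1 := by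
  ext i j
  rw [permMat_mul_apply]
  have : w10.symm i = w10 i := by rw [Equiv.symm_apply_eq, w10_w10]
  simp only [permMat, this, Matrix.one_apply, EmbeddingLike.apply_eq_iff_eq]

theorem permMat_v_mul_self : permMat v10 * permMat v10 = 1 := by
  ext i j
  rw [permMat_mul_apply]
  have : v10.symm i = v10 i := by rw [Equiv.symm_apply_eq, v10_v10]
  simp only [permMat, this, Matrix.one_apply, EmbeddingLike.apply_eq_iff_eq]

theorem w10_val (d : Fin 10) : (w10 d).val ≤ d.val + 5 := by revert d; decide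

theorem cell_zero {g : Matrix (Fin 10) (Fin 10) ℂ} (hg : g ∈ bruhatCell w10) {a b : Fin 10}
    (hab : b.val + 5 < a.val) : g a b = 0 := by
  obtain ⟨b₁, b₂, h₁, h₂, rfl⟩ := hg
  rw [Matrix.mul_apply]
  refine Finset.sum_eq_zero fun d _ => ?_
  rw [mul_permMat_apply]
  by_cases hd : b < d
  · rw [h₂.1 d b hd, mul_zero]
  · have hd' : d.val ≤ b.val := by
      have := not_lt.mp hd
      exact this
    rw [h₁.1 a (w10 d), zero_mul]
    have := w10_val d
    exact Fin.lt_def.mpr (by omega)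

theorem cell_inv {g : Matrix (Fin 10) (Fin 10) ℂ} (hg : g ∈ bruhatCell w10) :
    g⁻¹ ∈ bruhatCell w10 := by
  obtain ⟨b₁, b₂, h₁, h₂, rfl⟩ := hg
  refine ⟨b₂⁻¹, b₁⁻¹, h₂.inv, h₁.inv, ?_⟩
  have hw : (permMat w10)⁻¹ = permMat w10 := Matrix.inv_eq_right_inv permMat_w_mul_self
  rw [Matrix.mul_inv_rev, Matrix.mul_inv_rev, hw, mul_assoc]

theorem cell_isUnit {g : Matrix (Fin 10) (Fin 10) ℂ} (hg : g ∈ bruhatCell w10) :
    IsUnit g.det := by
  obtain ⟨b₁, b₂, h₁, h₂, rfl⟩ := hg
  have hw : IsUnit (permMat w10).det := by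
    have := congrArg Matrix.det permMat_w_mul_self
    rw [Matrix.det_mul, Matrix.det_one] at this
    exact IsUnit.of_mul_eq_one _ this
  rw [Matrix.det_mul, Matrix.det_mul]
  exact (h₁.isUnit_det.mul hw).mul h₂.isUnit_det

end Pool.Agent.Helper66.Ebba
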