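import Mathlib
import Pool.Agent.Helper66.EbbaCell

namespace Pool.Agent.Helper66.Ebba

open Matrix

/-- reindexing equivalence -/
abbrev e10 : Fin 5 ⊕ Fin 5 ≃ Fin 10 := finSumFinEquiv (m := 5) (n := 5)

theorem e10_inl (a : Fin 5) : (e10 (Sum.inl a)).val = a.val := rfl
theorem e10_inr (a : Fin 5) : (e10 (Sum.inr a)).val = 5 + a.val := rfl

theorem isBorel_reindex (S A T : Matrix (Fin 5) (Fin 5) ℂ) (hS : IsBorel S) (hT : IsBorel T) :
    IsBorel ((Matrix.fromBlocks S A 0 T).submatrix e10.symm e10.symm) := by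
  constructor
  · intro i j hij
    obtain ⟨a, rfl⟩ := e10.surjective i
    obtain ⟨b, rfl⟩ := e10.surjective j
    simp only [Matrix.submatrix_apply, Equiv.symm_apply_apply]
    rcases a with a | a <;> rcases b with b | b
    · simp only [Matrix.fromBlocks_apply₁₁]
      apply hS.1
      have := Fin.lt_def.mp hij
      rw [e10_inl, e10_inl] at this
      exact Fin.lt_def.mpr this
    · exfalso
      have := Fin.lt_def.mp hij
      rw [e10_inl, e10_inr] at this
      omega
    · simp
    · simp only [Matrix.fromBlocks_apply₂₂]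
      apply hT.1
      have := Fin.lt_def.mp hij
      rw [e10_inr, e10_inr] at this
      exact Fin.lt_def.mpr (by omega)
  · intro i
    obtain ⟨a, rfl⟩ := e10.surjective i
    simp only [Matrix.submatrix_apply, Equiv.symm_apply_apply]
    rcases a with a | a
    · simpa using hS.2 a
    · simpa using hT.2 a

theorem isBorel_one {n : ℕ} : IsBorel (1 : Matrix (Fin n) (Fin n) ℂ) :=
  ⟨fun i j h => Matrix.one_apply_ne (ne_of_gt h), fun i => by simp⟩

theorem permMat_w_submatrix :
    (permMat w10).submatrix e10 e10 = Matrix.fromBlocks 0 1 1 0 := by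
  have key : ∀ i j : Fin 5 ⊕ Fin 5, (e10 i = w10 (e10 j)) ↔
      (i = Sum.swap j) := by decide
  ext i j
  simp only [Matrix.submatrix_apply, permMat, key]
  rcases i with i | i <;> rcases j with j | j <;> simp [Matrix.one_apply]

theorem cell_mem {g g' : Matrix (Fin 10) (Fin 10) ℂ} (h1 : g' * g = 1)
    (hz : ∀ a b : Fin 10, b.val + 5 < a.val → g a b = 0)
    (hz' : ∀ a b : Fin 10, b.val + 5 < a.val → g' a b = 0)
    (hd : ∀ b : Fin 5, g (Fin.natAdd 5 b) (Fin.castAdd 5 b) ≠ 0) : g ∈ bruhatCell w10 := by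
  set G := g.submatrix e10 e10 with hG
  set G' := g'.submatrix e10 e10 with hG'
  have hGG : G' * G = 1 := by
    rw [hG, hG', Matrix.submatrix_mul_equiv, h1, Matrix.submatrix_one_equiv]
  set A := G.toBlocks₁₁ with hA
  set B := G.toBlocks₁₂ with hB
  set T := G.toBlocks₂₁ with hT
  set D := G.toBlocks₂₂ with hD
  set A' := G'.toBlocks₁₁
  set B' := G'.toBlocks₁₂
  set C' := G'.toBlocks₂₁ with hC'
  set D' := G'.toBlocks₂₂
  have eG : G = Matrix.fromBlocks A B T D := (Matrix.fromBlocks_toBlocks G).symm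
  have eG' : G' = Matrix.fromBlocks A' B' C' D' := (Matrix.fromBlocks_toBlocks G').symm
  have hprod := hGG
  rw [eG, eG', Matrix.fromBlocks_multiply, ← Matrix.fromBlocks_one] at hprod
  obtain ⟨-, -, e21, e22⟩ := Matrix.fromBlocks_inj.mp hprod
  have hTB : IsBorel T := by
    constructor
    · intro i j hij
      simp only [hT, hG, Matrix.toBlocks₂₁, Matrix.of_apply, Matrix.submatrix_apply]
      apply hz
      rw [e10_inl, e10_inr]
      have := Fin.lt_def.mp hij
      omega
    · intro i
      exact hd i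
  have hCtri : C'.BlockTriangular id := by
    intro i j hij
    simp only [hC', hG', Matrix.toBlocks₂₁, Matrix.of_apply, Matrix.submatrix_apply]
    apply hz'
    rw [e10_inl, e10_inr]
    have := Fin.lt_def.mp hij
    simp only [id] at this
    omega
  have hTi : T * T⁻¹ = 1 := Matrix.mul_nonsing_inv T hTB.isUnit_det
  have hTi' : T⁻¹ * T = 1 := Matrix.nonsing_inv_mul T hTB.isUnit_det
  set S := B - A * T⁻¹ * D with hS
  have hCS : C' * S = 1 := by
    have h3 : C' * A = -(D' * T) := eq_neg_of_add_eq_zero_left e21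
    calc C' * S = C' * B - (C' * A) * T⁻¹ * D := by
          rw [hS, Matrix.mul_sub]; simp only [Matrix.mul_assoc]
      _ = C' * B + D' * (T * T⁻¹) * D := by
          rw [h3]; simp only [Matrix.neg_mul, Matrix.mul_assoc, sub_neg_eq_add]
      _ = 1 := by rw [hTi, Matrix.mul_one]; exact e22
  have hCdet : IsUnit C'.det := by
    have := congrArg Matrix.det hCS
    rw [Matrix.det_mul, Matrix.det_one] at this
    exact IsUnit.of_mul_eq_one _ this
  have hCB : IsBorel C' := isBorel_of hCtri hCdet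
  have hSinv : S = C'⁻¹ := by
    have : C'⁻¹ * (C' * S) = C'⁻¹ := by rw [hCS, Matrix.mul_one]
    rwa [← Matrix.mul_assoc, Matrix.nonsing_inv_mul C' hCdet, Matrix.one_mul] at this
  have hSB : IsBorel S := hSinv ▸ hCB.inv
  refine ⟨(Matrix.fromBlocks S A 0 T).submatrix e10.symm e10.symm,
    (Matrix.fromBlocks 1 (T⁻¹ * D) 0 1).submatrix e10.symm e10.symm,
    isBorel_reindex S A T hSB hTB, isBorel_reindex 1 (T⁻¹ * D) 1 isBorel_one isBorel_one, ?_⟩
  have hw : permMat w10 = (Matrix.fromBlocks 0 1 1 0 : Matrix (Fin 5 ⊕ Fin 5) (Fin 5 ⊕ Fin 5) ℂ).submatrix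
      e10.symm e10.symm := by
    rw [← permMat_w_submatrix]
    ext i j
    simp
  rw [hw, Matrix.submatrix_mul_equiv, Matrix.submatrix_mul_equiv, Matrix.fromBlocks_multiply,
    Matrix.fromBlocks_multiply]
  have : g = G.submatrix e10.symm e10.symm := by
    ext i j
    simp [hG]
  rw [this, eG]
  congr 1
  have hx : A * (T⁻¹ * D) + S = B := by
    rw [hS, Matrix.mul_assoc]; abel
  have hy : T * (T⁻¹ * D) = D := by
    rw [← Matrix.mul_assoc, hTi, Matrix.one_mul]
  simp [hx, hy]

end Pool.Agent.Helper66.Ebba
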