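import Mathlib
import Pool.Agent.Helper66.EbbaCell2

namespace Pool.Agent.Helper66.Ebba

open Matrix MvPolynomial

section Mats
variable {R : Type*} [CommRing R]

/-- slice matrix -/
def Umat (xi : Fin 3 → R) (Y : Fin 2 → Fin 4 → R) (w : R) (a : Fin 4 → Fin 2 → R) :
    Matrix (Fin 10) (Fin 10) R :=
  !![1, 0, 0, 0, 0, 0, 0, 0, 0, 0;
     xi 0, 1, 0, 0, 0, 0, 0, 0, 0, 0;
     xi 1, 0, 1, 0, 0, 0, 0, 0, 0, 0;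
     xi 2, 0, 0, 1, 0, 0, 0, 0, 0, 0;
     Y 0 0, Y 0 1, Y 0 2, Y 0 3, 1, 0, 0, 0, 0, 0;
     Y 1 0, Y 1 1, Y 1 2, Y 1 3, w, 1, 0, 0, 0, 0;
     0, 0, 0, 0, a 0 0 + a 0 1 * w, a 0 1, 1, 0, 0, 0;
     0, 0, 0, a 1 0 * Y 0 3 + a 1 1 * Y 1 3, a 1 0 + a 1 1 * w, a 1 1, 0, 1, 0, 0;
     0, 0, a 2 0 * Y 0 2 + a 2 1 * Y 1 2, a 2 0 * Y 0 3 + a 2 1 * Y 1 3, a 2 0 + a 2 1 * w, a 2 1,
       0, 0, 1, 0;
     0, a 3 0 * Y 0 1 + a 3 1 * Y 1 1, a 3 0 * Y 0 2 + a 3 1 * Y 1 2,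
       a 3 0 * Y 0 3 + a 3 1 * Y 1 3, a 3 0 + a 3 1 * w, a 3 1, 0, 0, 0, 1]

/-- inverse of the slice matrix -/
def Vmat (xi : Fin 3 → R) (Y : Fin 2 → Fin 4 → R) (w : R) (a : Fin 4 → Fin 2 → R) :
    Matrix (Fin 10) (Fin 10) R :=
  !![1, 0, 0, 0, 0, 0, 0, 0, 0, 0;
     -xi 0, 1, 0, 0, 0, 0, 0, 0, 0, 0;
     -xi 1, 0, 1, 0, 0, 0, 0, 0, 0, 0;
     -xi 2, 0, 0, 1, 0, 0, 0, 0, 0, 0;
     -(Y 0 0 - (xi 0 * Y 0 1 + xi 1 * Y 0 2 + xi 2 * Y 0 3)), -Y 0 1, -Y 0 2, -Y 0 3,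
       1, 0, 0, 0, 0, 0;
     w * (Y 0 0 - (xi 0 * Y 0 1 + xi 1 * Y 0 2 + xi 2 * Y 0 3)) -
       (Y 1 0 - (xi 0 * Y 1 1 + xi 1 * Y 1 2 + xi 2 * Y 1 3)), w * Y 0 1 - Y 1 1,
       w * Y 0 2 - Y 1 2, w * Y 0 3 - Y 1 3, -w, 1, 0, 0, 0, 0;
     0, a 0 0 * Y 0 1 + a 0 1 * Y 1 1, a 0 0 * Y 0 2 + a 0 1 * Y 1 2,
       a 0 0 * Y 0 3 + a 0 1 * Y 1 3, -a 0 0, -a 0 1, 1, 0, 0, 0;
     0, a 1 0 * Y 0 1 + a 1 1 * Y 1 1, a 1 0 * Y 0 2 + a 1 1 * Y 1 2, 0, -a 1 0, -a 1 1,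
       0, 1, 0, 0;
     0, a 2 0 * Y 0 1 + a 2 1 * Y 1 1, 0, 0, -a 2 0, -a 2 1, 0, 0, 1, 0;
     0, 0, 0, 0, -a 3 0, -a 3 1, 0, 0, 0, 1]

/-- the vectors `η_r` -/
def eta (xi : Fin 3 → R) (Y : Fin 2 → Fin 4 → R) (r : Fin 4) (s : Fin 2) : R :=
  Y s 0 - ∑ c : Fin 3, if c.val + r.val < 3 then xi c * Y s c.succ else 0

theorem sum10 {M : Type*} [AddCommMonoid M] (f : Fin 10 → M) :
    ∑ k, f k = f 0 + f 1 + f 2 + f 3 + f 4 + f 5 + f 6 + f 7 + f 8 + f 9 := by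
  simp only [Fin.sum_univ_succ, Fin.sum_univ_zero, add_zero, ← add_assoc]
  rfl

set_option maxHeartbeats 4000000 in
theorem Umat_mul_Vmat (xi : Fin 3 → R) (Y : Fin 2 → Fin 4 → R) (w : R) (a : Fin 4 → Fin 2 → R)
    (h : ∀ r, a r 0 * eta xi Y r 0 + a r 1 * eta xi Y r 1 = 0) :
    Umat xi Y w a * Vmat xi Y w a = 1 := by
  have h0 := h 0
  have h1 := h 1
  have h2 := h 2
  have h3 := h 3
  simp [eta, Fin.sum_univ_succ] at h0 h1 h2 h3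
  ext i j
  rw [Matrix.mul_apply, sum10]
  fin_cases i <;> fin_cases j <;> simp [Umat, Vmat] <;>
    first
    | ring1
    | linear_combination -h0
    | linear_combination -h1
    | linear_combination -h2
    | linear_combination -h3

set_option maxHeartbeats 4000000 in
theorem Umat_zero (xi : Fin 3 → R) (Y : Fin 2 → Fin 4 → R) (w : R) (a : Fin 4 → Fin 2 → R)
    (i j : Fin 10) (h : j.val + 5 < i.val) : Umat xi Y w a (v10 i) j = 0 := by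
  fin_cases i <;> fin_cases j <;> simp [v10] at h ⊢ <;> simp [Umat]

set_option maxHeartbeats 4000000 in
theorem Vmat_zero (xi : Fin 3 → R) (Y : Fin 2 → Fin 4 → R) (w : R) (a : Fin 4 → Fin 2 → R)
    (i j : Fin 10) (h : j.val + 5 < i.val) : Vmat xi Y w a i (v10 j) = 0 := by
  fin_cases i <;> fin_cases j <;> simp [v10] at h ⊢ <;> simp [Vmat]

end Mats
end Pool.Agent.Helper66.Ebba
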