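import Mathlib
import Pool.Agent.Helper66.EbbaFam

namespace Pool.Agent.Helper66.Ebba

open Matrix MvPolynomial

section Mats
variable {R : Type*} [CommRing R]

/-- the part of the unipotent group permuting the chart -/
def Nmat (nu : Fin 9 → R) : Matrix (Fin 10) (Fin 10) R :=
  !![1, 0, 0, 0, 0, 0, 0, 0, 0, 0;
     0, 1, 0, 0, 0, 0, 0, 0, 0, 0;
     0, nu 0, 1, 0, 0, 0, 0, 0, 0, 0;
     0, nu 1, nu 2, 1, 0, 0, 0, 0, 0, 0;
     0, 0, 0, 0, 1, 0, 0, 0, 0, 0;
     0, 0, 0, 0, 0, 1, 0, 0, 0, 0;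
     0, 0, 0, 0, 0, 0, 1, 0, 0, 0;
     0, 0, 0, 0, 0, 0, nu 3, 1, 0, 0;
     0, 0, 0, 0, 0, 0, nu 4, nu 6, 1, 0;
     0, 0, 0, 0, 0, 0, nu 5, nu 7, nu 8, 1]

/-- lower unitriangular -/
def LU {n : ℕ} (M : Matrix (Fin n) (Fin n) R) : Prop :=
  (∀ i j, i < j → M i j = 0) ∧ ∀ i, M i i = 1

/-- the entries below the diagonal -/
def toPos {n : ℕ} (M : Matrix (Fin n) (Fin n) R) : Pos n → R := fun p => M p.1.1 p.1.2

theorem lowerUni_toPos {n : ℕ} {M : Matrix (Fin n) (Fin n) R} (h : LU M) :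
    lowerUni (toPos M) = M := by
  ext i j
  unfold lowerUni toPos
  by_cases h1 : j < i
  · simp [h1]
  · by_cases h2 : i = j
    · subst h2
      simp [h.2 i]
    · have : i < j := lt_of_le_of_ne (not_lt.mp h1) h2
      simp [h1, h2, h.1 i j this]

theorem lowerUni_LU {n : ℕ} (x : Pos n → R) : LU (lowerUni x) := by
  constructor
  · intro i j hij
    have h1 : ¬ j < i := not_lt.mpr hij.le
    simp [lowerUni, h1, hij.ne]
  · intro i
    simp [lowerUni]

theorem LU.mul {n : ℕ} {M N : Matrix (Fin n) (Fin n) R} (hM : LU M) (hN : LU N) :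
    LU (M * N) := by
  constructor
  · intro i j hij
    rw [Matrix.mul_apply]
    refine Finset.sum_eq_zero fun k _ => ?_
    by_cases h : i < k
    · rw [hM.1 i k h, zero_mul]
    · rw [hN.1 k j (lt_of_le_of_lt (not_lt.mp h) hij), mul_zero]
  · intro i
    rw [Matrix.mul_apply, Finset.sum_eq_single i]
    · rw [hM.2, hN.2, mul_one]
    · intro k _ hk
      rcases lt_or_gt_of_ne hk with h | h
      · rw [hN.1 k i h, mul_zero]
      · rw [hM.1 i k h, zero_mul]
    · simp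

theorem Nmat_LU (nu : Fin 9 → R) : LU (Nmat nu) := by
  constructor
  · intro i j hij
    fin_cases i <;> fin_cases j <;> simp at hij ⊢ <;> simp [Nmat]
  · intro i
    fin_cases i <;> simp [Nmat]

theorem Umat_LU (xi : Fin 3 → R) (Y : Fin 2 → Fin 4 → R) (w : R) (a : Fin 4 → Fin 2 → R) :
    LU (Umat xi Y w a) := by
  constructor
  · intro i j hij
    fin_cases i <;> fin_cases j <;> simp at hij ⊢ <;> simp [Umat]
  · intro i
    fin_cases i <;> simp [Umat]

theorem Nmat_conj (nu : Fin 9 → R) (i j : Fin 10) (h : j < i) :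
    Nmat nu (v10 i) (v10 j) = 0 := by
  fin_cases i <;> fin_cases j <;> simp [v10] at h ⊢ <;> simp [Nmat]

theorem Umat_map {S : Type*} [CommRing S] (φ : R →+* S) (xi : Fin 3 → R) (Y : Fin 2 → Fin 4 → R)
    (w : R) (a : Fin 4 → Fin 2 → R) (i j : Fin 10) :
    φ (Umat xi Y w a i j) =
      Umat (fun c => φ (xi c)) (fun s c => φ (Y s c)) (φ w) (fun r s => φ (a r s)) i j := by
  fin_cases i <;> fin_cases j <;> simp [Umat]

theorem Nmat_map {S : Type*} [CommRing S] (φ : R →+* S) (nu : Fin 9 → R) (i j : Fin 10) :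
    φ (Nmat nu i j) = Nmat (fun c => φ (nu c)) i j := by
  fin_cases i <;> fin_cases j <;> simp [Nmat]

/-- the family of matrices over an arbitrary ring -/
def fam (xi : Fin 3 → R) (Y : Fin 2 → Fin 4 → R) (w : R) (a : Fin 4 → Fin 2 → R)
    (nu : Fin 9 → R) : Matrix (Fin 10) (Fin 10) R := Nmat nu * Umat xi Y w a

theorem fam_map {S : Type*} [CommRing S] (φ : R →+* S) (xi : Fin 3 → R) (Y : Fin 2 → Fin 4 → R)
    (w : R) (a : Fin 4 → Fin 2 → R) (nu : Fin 9 → R) (p : Pos 10) :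
    φ (toPos (fam xi Y w a nu) p) =
      toPos (fam (fun c => φ (xi c)) (fun s c => φ (Y s c)) (φ w) (fun r s => φ (a r s))
        (fun c => φ (nu c))) p := by
  simp only [toPos, fam, Matrix.mul_apply, map_sum, map_mul, Nmat_map, Umat_map]

end Mats

/-- nonvanishing quantity -/
def gq {R : Type*} [CommRing R] (Y : Fin 2 → Fin 4 → R) (w : R) (a : Fin 4 → Fin 2 → R) : R :=
  Y 1 0 * (a 3 0 * Y 0 1 + a 3 1 * Y 1 1) * (a 2 0 * Y 0 2 + a 2 1 * Y 1 2) *
    (a 1 0 * Y 0 3 + a 1 1 * Y 1 3) * (a 0 0 + a 0 1 * w)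

theorem slice_mem (xi : Fin 3 → ℂ) (Y : Fin 2 → Fin 4 → ℂ) (w : ℂ) (a : Fin 4 → Fin 2 → ℂ)
    (h : ∀ r, a r 0 * eta xi Y r 0 + a r 1 * eta xi Y r 1 = 0) (hg : gq Y w a ≠ 0) :
    permMat v10 * Umat xi Y w a ∈ bruhatCell w10 := by
  have hsymm : ∀ i, v10.symm i = v10 i := fun i => by rw [Equiv.symm_apply_eq, v10_v10]
  have hUV := Umat_mul_Vmat xi Y w a h
  have hVU : Vmat xi Y w a * Umat xi Y w a = 1 := mul_eq_one_comm.mp hUV
  simp only [gq, mul_ne_zero_iff] at hg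
  obtain ⟨⟨⟨⟨h0, h1⟩, h2⟩, h3⟩, h4⟩ := hg
  refine cell_mem (g' := Vmat xi Y w a * permMat v10) ?_ ?_ ?_ ?_
  · rw [Matrix.mul_assoc, ← Matrix.mul_assoc (permMat v10), permMat_v_mul_self, Matrix.one_mul, hVU]
  · intro i j hij
    rw [permMat_mul_apply, hsymm]
    exact Umat_zero xi Y w a i j hij
  · intro i j hij
    rw [mul_permMat_apply]
    exact Vmat_zero xi Y w a i j hij
  · intro b
    rw [permMat_mul_apply, hsymm]
    fin_cases b
    · simpa [v10, Umat] using h0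
    · simpa [v10, Umat] using h1
    · simpa [v10, Umat] using h2
    · simpa [v10, Umat] using h3
    · simpa [v10, Umat] using h4

theorem fam_mem (xi : Fin 3 → ℂ) (Y : Fin 2 → Fin 4 → ℂ) (w : ℂ) (a : Fin 4 → Fin 2 → ℂ)
    (nu : Fin 9 → ℂ)
    (h : ∀ r, a r 0 * eta xi Y r 0 + a r 1 * eta xi Y r 1 = 0) (hg : gq Y w a ≠ 0) :
    toPos (fam xi Y w a nu) ∈ cellInChart v10 w10 := by
  show permMat v10 * lowerUni (toPos (fam xi Y w a nu)) ∈ bruhatCell w10
  have hsymm : ∀ i, v10.symm i = v10 i := fun i => by rw [Equiv.symm_apply_eq, v10_v10]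
  have hLU : LU (fam xi Y w a nu) := (Nmat_LU nu).mul (Umat_LU xi Y w a)
  rw [lowerUni_toPos hLU]
  obtain ⟨b₁, b₂, hb₁, hb₂, he⟩ := slice_mem xi Y w a h hg
  refine ⟨(permMat v10 * Nmat nu * permMat v10) * b₁, b₂, ?_, hb₂, ?_⟩
  · refine IsBorel.mul ⟨?_, ?_⟩ hb₁
    · intro i j hij
      rw [mul_permMat_apply, permMat_mul_apply, hsymm]
      exact Nmat_conj nu i j hij
    · intro i
      rw [mul_permMat_apply, permMat_mul_apply, hsymm, (Nmat_LU nu).2]
      exact one_ne_zero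
  · unfold fam
    calc permMat v10 * (Nmat nu * Umat xi Y w a)
        = permMat v10 * Nmat nu * (permMat v10 * permMat v10) * Umat xi Y w a := by
          rw [permMat_v_mul_self, Matrix.mul_one, Matrix.mul_assoc]
      _ = (permMat v10 * Nmat nu * permMat v10) * (permMat v10 * Umat xi Y w a) := by
          simp only [Matrix.mul_assoc]
      _ = _ := by rw [he]; simp only [Matrix.mul_assoc]

end Pool.Agent.Helper66.Ebba
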