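import Mathlib
import Pool.Agent.Helper66.EbbaFam2

namespace Pool.Agent.Helper66.Ebba

open Matrix MvPolynomial

/-- `a_r = β_r η_r^⊥` -/
def aOf {R : Type*} [CommRing R] (xi : Fin 3 → R) (Y : Fin 2 → Fin 4 → R) (be : Fin 4 → R)
    (r : Fin 4) (s : Fin 2) : R :=
  if s = 0 then be r * eta xi Y r 1 else -(be r * eta xi Y r 0)

theorem aOf_zero {R : Type*} [CommRing R] (xi : Fin 3 → R) (Y : Fin 2 → Fin 4 → R)
    (be : Fin 4 → R) (r : Fin 4) : aOf xi Y be r 0 = be r * eta xi Y r 1 := by simp [aOf]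

theorem aOf_one {R : Type*} [CommRing R] (xi : Fin 3 → R) (Y : Fin 2 → Fin 4 → R)
    (be : Fin 4 → R) (r : Fin 4) : aOf xi Y be r 1 = -(be r * eta xi Y r 0) := by simp [aOf]

theorem aOf_orth {R : Type*} [CommRing R] (xi : Fin 3 → R) (Y : Fin 2 → Fin 4 → R)
    (be : Fin 4 → R) (r : Fin 4) :
    aOf xi Y be r 0 * eta xi Y r 0 + aOf xi Y be r 1 * eta xi Y r 1 = 0 := by
  rw [aOf_zero, aOf_one]; ring

theorem eta_map {R S : Type*} [CommRing R] [CommRing S] (φ : R →+* S) (xi : Fin 3 → R)
    (Y : Fin 2 → Fin 4 → R) (r : Fin 4) (s : Fin 2) :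
    φ (eta xi Y r s) = eta (fun c => φ (xi c)) (fun s c => φ (Y s c)) r s := by
  simp only [eta, map_sub, map_sum]
  congr 1
  refine Finset.sum_congr rfl fun c _ => ?_
  split_ifs <;> simp

theorem aOf_map {R S : Type*} [CommRing R] [CommRing S] (φ : R →+* S) (xi : Fin 3 → R)
    (Y : Fin 2 → Fin 4 → R) (be : Fin 4 → R) (r : Fin 4) (s : Fin 2) :
    φ (aOf xi Y be r s) =
      aOf (fun c => φ (xi c)) (fun s c => φ (Y s c)) (fun r => φ (be r)) r s := by
  unfold aOf
  split_ifs
  · rw [map_mul, eta_map]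
  · rw [map_neg, map_mul, eta_map]

theorem gq_map {R S : Type*} [CommRing R] [CommRing S] (φ : R →+* S)
    (Y : Fin 2 → Fin 4 → R) (w : R) (a : Fin 4 → Fin 2 → R) :
    φ (gq Y w a) = gq (fun s c => φ (Y s c)) (φ w) (fun r s => φ (a r s)) := by
  simp only [gq, map_mul, map_add]

theorem eval_aeval {σ : Type*} (x : σ → Polynomial ℂ) (t : ℂ) (f : MvPolynomial σ ℂ) :
    (aeval x f).eval t = eval (fun p => (x p).eval t) f := by
  have h : ((Polynomial.aeval t : Polynomial ℂ →ₐ[ℂ] ℂ).comp (aeval x)) =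
      (aeval (fun p => (x p).eval t) : MvPolynomial σ ℂ →ₐ[ℂ] ℂ) := by
    ext p
    simp
  have h2 := DFunLike.congr_fun h f
  simp only [AlgHom.comp_apply] at h2
  rw [MvPolynomial.aeval_eq_eval] at h2
  rw [← Polynomial.coe_aeval_eq_eval]
  exact h2

theorem mem_schubertIdeal {f : MvPolynomial (Pos 10) ℂ} :
    f ∈ schubertIdeal v10 w10 ↔ ∀ x ∈ cellInChart v10 w10, eval x f = 0 := by
  unfold schubertIdeal
  rw [MvPolynomial.mem_vanishingIdeal_iff]
  simp only [MvPolynomial.aeval_eq_eval]

theorem fam_vanish {f : MvPolynomial (Pos 10) ℂ} (hf : f ∈ schubertIdeal v10 w10)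
    (xi : Fin 3 → ℂ) (Y : Fin 2 → Fin 4 → ℂ) (w : ℂ) (be : Fin 4 → ℂ) (nu : Fin 9 → ℂ) :
    eval (toPos (fam xi Y w (aOf xi Y be) nu)) f = 0 := by
  classical
  set Y0 : Fin 2 → Fin 4 → ℂ := fun s c => if c = 0 then (if s = 0 then 0 else 1) else
    (if s = 0 then 1 else 0) with hY0
  set xiP : Fin 3 → Polynomial ℂ := fun c => Polynomial.X * Polynomial.C (xi c) with hxi
  set YP : Fin 2 → Fin 4 → Polynomial ℂ := fun s c => Polynomial.C (Y0 s c) +
    Polynomial.X * Polynomial.C (Y s c - Y0 s c) with hY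
  set wP : Polynomial ℂ := Polynomial.X * Polynomial.C w with hw
  set beP : Fin 4 → Polynomial ℂ := fun c => Polynomial.C 1 +
    Polynomial.X * Polynomial.C (be c - 1) with hbe
  set nuP : Fin 9 → Polynomial ℂ := fun c => Polynomial.X * Polynomial.C (nu c) with hnu
  set P : Polynomial ℂ := aeval (toPos (fam xiP YP wP (aOf xiP YP beP) nuP)) f with hP
  set G : Polynomial ℂ := gq YP wP (aOf xiP YP beP) with hG
  have hPG : P * G = 0 := by
    apply Polynomial.funext
    intro t
    rw [Polynomial.eval_mul, Polynomial.eval_zero]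
    by_cases hz : G.eval t = 0
    · rw [hz, mul_zero]
    · have h1 : P.eval t = 0 := by
        rw [hP, eval_aeval]
        rw [mem_schubertIdeal] at hf
        have h2 : (fun p => (toPos (fam xiP YP wP (aOf xiP YP beP) nuP) p).eval t) =
            toPos (fam (fun c => (xiP c).eval t) (fun s c => (YP s c).eval t) (wP.eval t)
              (aOf (fun c => (xiP c).eval t) (fun s c => (YP s c).eval t)
                (fun c => (beP c).eval t)) (fun c => (nuP c).eval t)) := by
          funext p
          have := fam_map (Polynomial.evalRingHom t) xiP YP wP (aOf xiP YP beP) nuP p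
          simp only [aOf_map] at this
          exact this
        rw [h2]
        apply hf
        apply fam_mem
        · intro r
          exact aOf_orth _ _ _ _
        · intro h3
          apply hz
          have := gq_map (Polynomial.evalRingHom t) YP wP (aOf xiP YP beP)
          simp only [aOf_map] at this
          rw [hG]
          exact this.trans h3
      rw [h1, zero_mul]
  have hG0 : G ≠ 0 := by
    intro h
    have h1 : G.eval 0 = 0 := by rw [h, Polynomial.eval_zero]
    have := gq_map (Polynomial.evalRingHom 0) YP wP (aOf xiP YP beP)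
    simp only [aOf_map] at this
    rw [← hG] at this
    have h2 : (Polynomial.evalRingHom 0) G = 0 := h1
    rw [h2] at this
    simp [gq, aOf, eta, hxi, hY, hw, hbe, hY0] at this
  have hP0 : P = 0 := by
    rcases mul_eq_zero.mp hPG with h | h
    · exact h
    · exact absurd h hG0
  have h1 : P.eval 1 = 0 := by rw [hP0, Polynomial.eval_zero]
  rw [hP, eval_aeval] at h1
  have h2 : (fun p => (toPos (fam xiP YP wP (aOf xiP YP beP) nuP) p).eval 1) =
      toPos (fam xi Y w (aOf xi Y be) nu) := by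
    funext p
    have := fam_map (Polynomial.evalRingHom 1) xiP YP wP (aOf xiP YP beP) nuP p
    simp only [aOf_map] at this
    refine Eq.trans this ?_
    simp [hxi, hY, hw, hbe, hnu]
  rw [h2] at h1
  exact h1

end Pool.Agent.Helper66.Ebba
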