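import Mathlib
import Pool.Agent.Helper66.EbbaArc
import Pool.Agent.Helper66.EbbaVar

namespace Pool.Agent.Helper66.Ebba

open Matrix MvPolynomial

theorem aeval_mul_homog {σ : Type*} (t : Polynomial ℂ) (y : σ → Polynomial ℂ)
    {φ : MvPolynomial σ ℂ} {i : ℕ} (hφ : φ.IsHomogeneous i) :
    aeval (fun p => t * y p) φ = t ^ i * aeval y φ := by
  rw [aeval_def, aeval_def, eval₂_eq, eval₂_eq, Finset.mul_sum]
  refine Finset.sum_congr rfl fun d hd => ?_
  have h1 : d.degree = i := by
    have := hφ.degree_eq_sum_deg_support hd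
    rw [this]; rfl
  simp only [mul_pow, Finset.prod_mul_distrib, Finset.prod_pow_eq_pow_sum]
  rw [show (∑ i ∈ d.support, d i) = i from h1]
  ring

/-- The arc lemma. -/
theorem arc_lemma (x : Pos 10 → Polynomial ℂ) (h0 : ∀ p, (x p).coeff 0 = 0)
    (hx : ∀ t : ℂ, t ≠ 0 → ∀ f ∈ schubertIdeal v10 w10, eval (fun p => (x p).eval t) f = 0)
    {φ : MvPolynomial (Pos 10) ℂ} {i : ℕ} (hφ : φ.IsHomogeneous i)
    (hI : φ ∈ schubertIdeal v10 w10 ⊔ originIdeal 10 ^ (i + 1)) :
    eval (fun p => (x p).coeff 1) φ = 0 := by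
  obtain ⟨f, hf, g, hg, rfl⟩ := Submodule.mem_sup.mp hI
  have hf0 : aeval x f = 0 := by
    have h : Polynomial.X * aeval x f = 0 := by
      apply Polynomial.funext
      intro t
      rw [Polynomial.eval_mul, Polynomial.eval_X, Polynomial.eval_zero]
      by_cases ht : t = 0
      · rw [ht, zero_mul]
      · rw [eval_aeval, hx t ht f hf, mul_zero]
    exact (mul_eq_zero.mp h).resolve_left Polynomial.X_ne_zero
  have hxy : ∀ p, x p = Polynomial.X * (x p).divX := by
    intro p
    have := Polynomial.X_mul_divX_add (x p)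
    rw [h0 p] at this
    simpa using this.symm
  have hg0 : aeval x g ∈ (Ideal.span {(Polynomial.X : Polynomial ℂ)}) ^ (i + 1) := by
    have hle : (originIdeal 10 ^ (i + 1)).map (aeval x : MvPolynomial (Pos 10) ℂ →ₐ[ℂ] _).toRingHom
        ≤ (Ideal.span {(Polynomial.X : Polynomial ℂ)}) ^ (i + 1) := by
      rw [Ideal.map_pow]
      refine Ideal.pow_right_mono ?_ _
      rw [Ideal.map_le_iff_le_comap]
      intro h hh
      rw [Ideal.mem_comap, Ideal.mem_span_singleton, Polynomial.X_dvd_iff,
        Polynomial.coeff_zero_eq_eval_zero]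
      show (aeval x h).eval 0 = 0
      rw [eval_aeval]
      have : (fun p => (x p).eval 0) = (0 : Pos 10 → ℂ) := by
        funext p
        rw [← Polynomial.coeff_zero_eq_eval_zero, h0]; rfl
      rw [this, MvPolynomial.eval_zero]
      exact hh
    exact hle (Ideal.mem_map_of_mem _ hg)
  have h1 : aeval x (f + g) = Polynomial.X ^ i * aeval (fun p => (x p).divX) (f + g) := by
    conv_lhs => rw [show x = fun p => Polynomial.X * (x p).divX from funext hxy]
    exact aeval_mul_homog _ _ hφ
  rw [map_add, hf0, zero_add] at h1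
  rw [Ideal.span_singleton_pow, Ideal.mem_span_singleton] at hg0
  obtain ⟨c, hc⟩ := hg0
  rw [h1, pow_succ, mul_assoc] at hc
  have h2 := mul_left_cancel₀ (pow_ne_zero i (Polynomial.X_ne_zero (R := ℂ))) hc
  have h3 := congrArg (Polynomial.eval 0) h2
  rw [eval_aeval, Polynomial.eval_mul, Polynomial.eval_X, zero_mul] at h3
  rw [← h3]
  congr 1
  congr 1
  funext p
  rw [← Polynomial.coeff_zero_eq_eval_zero, Polynomial.coeff_divX]

end Pool.Agent.Helper66.Ebba
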