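import Mathlib
import Pool.Agent.Helper66.EbbaArc2

namespace Pool.Agent.Helper66.Ebba

open Matrix MvPolynomial

/-- The chart coordinate of each essential variable. -/
def toP : Var → Pos 10
  | Var.z s => ⟨(⟨4 + s.val, by omega⟩, 0), by
      apply Fin.lt_def.mpr
      show 0 < 4 + s.val
      omega⟩
  | Var.A r s => ⟨(⟨6 + r.val, by omega⟩, ⟨4 + s.val, by omega⟩), by
      apply Fin.lt_def.mpr
      show 4 + s.val < 6 + r.val
      omega⟩
  | Var.xi c => ⟨(⟨c.val + 1, by omega⟩, 0), by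
      apply Fin.lt_def.mpr
      show 0 < c.val + 1
      omega⟩
  | Var.Y s c => ⟨(⟨4 + s.val, by omega⟩, ⟨c.val + 1, by omega⟩), by
      apply Fin.lt_def.mpr
      show c.val + 1 < 4 + s.val
      omega⟩
  | Var.o k => (![⟨(2, 1), by decide⟩, ⟨(3, 1), by decide⟩, ⟨(3, 2), by decide⟩,
      ⟨(5, 4), by decide⟩, ⟨(7, 6), by decide⟩, ⟨(8, 6), by decide⟩, ⟨(9, 6), by decide⟩,
      ⟨(8, 7), by decide⟩, ⟨(9, 7), by decide⟩, ⟨(9, 8), by decide⟩] : Fin 10 → Pos 10) k

/-- The killed coordinates. -/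
def toL (r c : Fin 4) : Pos 10 := ⟨(⟨6 + r.val, by omega⟩, ⟨c.val, by omega⟩), by
      apply Fin.lt_def.mpr
      show c.val < 6 + r.val
      omega⟩

theorem toP_inj : Function.Injective toP := by
  have : ∀ a b, toP a = toP b → a = b := by decide +kernel
  exact fun a b h => this a b h

theorem toP_or_toL (p : Pos 10) : (∃ v, toP v = p) ∨ ∃ r c, toL r c = p := by
  revert p
  decide +kernel

section
variable (xi : Fin 3 → Polynomial ℂ) (Y : Fin 2 → Fin 4 → Polynomial ℂ) (w : Polynomial ℂ)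
  (a : Fin 4 → Fin 2 → Polynomial ℂ) (nu : Fin 9 → Polynomial ℂ)

theorem Umat_coeff_zero (hxi : ∀ c, (xi c).coeff 0 = 0) (hY : ∀ s c, (Y s c).coeff 0 = 0)
    (hw : w.coeff 0 = 0) (ha : ∀ r s, (a r s).coeff 0 = 0) (i j : Fin 10) :
    (Umat xi Y w a i j).coeff 0 = if i = j then 1 else 0 := by
  fin_cases i <;> fin_cases j <;>
    simp [Umat, Polynomial.coeff_zero_eq_eval_zero, -Polynomial.eval_mul] <;>
    simp [← Polynomial.coeff_zero_eq_eval_zero, hxi, hY, hw, ha]

theorem Nmat_coeff_zero (hnu : ∀ k, (nu k).coeff 0 = 0) (i j : Fin 10) :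
    (Nmat nu i j).coeff 0 = if i = j then 1 else 0 := by
  fin_cases i <;> fin_cases j <;> simp [Nmat] <;> simp [hnu]

end

end Pool.Agent.Helper66.Ebba
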