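import Mathlib
import Pool.Agent.Helper66.EbbaDir

namespace Pool.Agent.Helper66.Ebba

open Matrix MvPolynomial

/-- index of the remaining root subgroups -/
def oIdx : Fin 9 → Fin 10 := ![0, 1, 2, 4, 5, 6, 7, 8, 9]

section
variable (xi : Fin 3 → Polynomial ℂ) (Y : Fin 2 → Fin 4 → Polynomial ℂ) (w : Polynomial ℂ)
  (a : Fin 4 → Fin 2 → Polynomial ℂ) (nu : Fin 9 → Polynomial ℂ)

theorem fam_coeff_zero (hxi : ∀ c, (xi c).coeff 0 = 0) (hY : ∀ s c, (Y s c).coeff 0 = 0)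
    (hw : w.coeff 0 = 0) (ha : ∀ r s, (a r s).coeff 0 = 0) (hnu : ∀ k, (nu k).coeff 0 = 0)
    (p : Pos 10) : (toPos (fam xi Y w a nu) p).coeff 0 = 0 := by
  obtain ⟨⟨i, j⟩, hij⟩ := p
  simp only at hij
  simp only [toPos, fam, Matrix.mul_apply, Polynomial.finsetSum_coeff, Polynomial.mul_coeff_zero,
    Umat_coeff_zero xi Y w a hxi hY hw ha, Nmat_coeff_zero nu hnu]
  simp [hij.ne']

theorem fam_coeff_one (hxi : ∀ c, (xi c).coeff 0 = 0) (hY : ∀ s c, (Y s c).coeff 0 = 0)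
    (hw : w.coeff 0 = 0) (ha : ∀ r s, (a r s).coeff 0 = 0) (hnu : ∀ k, (nu k).coeff 0 = 0)
    (p : Pos 10) : (toPos (fam xi Y w a nu) p).coeff 1 =
      (Umat xi Y w a p.1.1 p.1.2).coeff 1 + (Nmat nu p.1.1 p.1.2).coeff 1 := by
  obtain ⟨⟨i, j⟩, hij⟩ := p
  simp only [toPos, fam, Matrix.mul_apply, Polynomial.finsetSum_coeff, Polynomial.mul_coeff_one,
    Umat_coeff_zero xi Y w a hxi hY hw ha, Nmat_coeff_zero nu hnu]
  simp [Finset.sum_add_distrib]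

/-- the direction of an arc -/
def dirOf (v : Var) : ℂ :=
  match v with
  | Var.z s => (Y s 0).coeff 1
  | Var.A r s => (a r s).coeff 1
  | Var.xi c => (xi c).coeff 1
  | Var.Y s c => (Y s c.succ).coeff 1
  | Var.o k => ((![nu 0, nu 1, nu 2, w, nu 3, nu 4, nu 5, nu 6, nu 7, nu 8] : Fin 10 → Polynomial ℂ)
      k).coeff 1

theorem fam_dir (hxi : ∀ c, (xi c).coeff 0 = 0) (hY : ∀ s c, (Y s c).coeff 0 = 0)
    (hw : w.coeff 0 = 0) (ha : ∀ r s, (a r s).coeff 0 = 0) (hnu : ∀ k, (nu k).coeff 0 = 0)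
    (v : Var) : (toPos (fam xi Y w a nu) (toP v)).coeff 1 = dirOf xi Y w a nu v := by
  rw [fam_coeff_one xi Y w a nu hxi hY hw ha hnu]
  rcases v with s | ⟨r, s⟩ | c | ⟨s, c⟩ | k
  · fin_cases s <;> simp [toP, Umat, Nmat, dirOf]
  · fin_cases r <;> fin_cases s <;> simp [toP, Umat, Nmat, dirOf, Polynomial.mul_coeff_one, ha, hw]
  · fin_cases c <;> simp [toP, Umat, Nmat, dirOf]
  · fin_cases s <;> fin_cases c <;> simp [toP, Umat, Nmat, dirOf]
  · fin_cases k <;> simp [toP, Umat, Nmat, dirOf]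

end

end Pool.Agent.Helper66.Ebba
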