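import Mathlib
import Pool.Agent.Helper66.EbbaDir2

namespace Pool.Agent.Helper66.Ebba

open Matrix MvPolynomial

theorem dir_general {φ : MvPolynomial Var ℂ} {i : ℕ} (hφ : φ.IsHomogeneous i)
    (hI : rename toP φ ∈ schubertIdeal v10 w10 ⊔ originIdeal 10 ^ (i + 1))
    (xi : Fin 3 → Polynomial ℂ) (Y : Fin 2 → Fin 4 → Polynomial ℂ) (w : Polynomial ℂ)
    (a : Fin 4 → Fin 2 → Polynomial ℂ) (nu : Fin 9 → Polynomial ℂ)
    (hxi : ∀ c, (xi c).coeff 0 = 0) (hY : ∀ s c, (Y s c).coeff 0 = 0)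
    (hw : w.coeff 0 = 0) (ha : ∀ r s, (a r s).coeff 0 = 0) (hnu : ∀ k, (nu k).coeff 0 = 0)
    (hbe : ∀ t : ℂ, t ≠ 0 → ∃ be : Fin 4 → ℂ, ∀ r s, (a r s).eval t =
      aOf (fun c => (xi c).eval t) (fun s c => (Y s c).eval t) be r s)
    (D : Var → ℂ) (hD : ∀ v, dirOf xi Y w a nu v = D v) : eval D φ = 0 := by
  have h := arc_lemma (toPos (fam xi Y w a nu)) (fam_coeff_zero xi Y w a nu hxi hY hw ha hnu)
    ?_ (hφ.rename_isHomogeneous (f := toP)) hI
  · rw [eval_rename] at h
    have h2 : (fun p => (toPos (fam xi Y w a nu) p).coeff 1) ∘ toP = D := by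
      funext v
      rw [Function.comp_apply, fam_dir xi Y w a nu hxi hY hw ha hnu, hD]
    rw [h2] at h
    exact h
  · intro t ht f hf
    obtain ⟨be, hbe⟩ := hbe t ht
    have h2 : (fun p => (toPos (fam xi Y w a nu) p).eval t) =
        toPos (fam (fun c => (xi c).eval t) (fun s c => (Y s c).eval t) (w.eval t)
          (aOf (fun c => (xi c).eval t) (fun s c => (Y s c).eval t) be)
          (fun c => (nu c).eval t)) := by
      funext p
      have h3 := fam_map (Polynomial.evalRingHom t) xi Y w a nu p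
      refine Eq.trans h3 ?_
      have h4 : (fun r s => (Polynomial.evalRingHom t) (a r s)) =
          aOf (fun c => (xi c).eval t) (fun s c => (Y s c).eval t) be := by
        funext r s
        exact hbe r s
      rw [h4]
      rfl
    rw [h2]
    exact fam_vanish hf _ _ _ _ _

theorem dir_a {φ : MvPolynomial Var ℂ} {i : ℕ} (hφ : φ.IsHomogeneous i)
    (hI : rename toP φ ∈ schubertIdeal v10 w10 ⊔ originIdeal 10 ^ (i + 1)) (D : Var → ℂ)
    (hD : ∃ β : Fin 4 → ℂ, ∀ r, D (Var.A r 0) = β r * D (Var.z 1) ∧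
        D (Var.A r 1) = -(β r * D (Var.z 0))) : eval D φ = 0 := by
  obtain ⟨β, hβ⟩ := hD
  set xi : Fin 3 → Polynomial ℂ := fun c => Polynomial.X * Polynomial.C (D (Var.xi c)) with hxi
  set Y : Fin 2 → Fin 4 → Polynomial ℂ := fun s c => Polynomial.X *
    Polynomial.C (Fin.cases (D (Var.z s)) (fun c => D (Var.Y s c)) c : ℂ) with hY
  set w : Polynomial ℂ := Polynomial.X * Polynomial.C (D (Var.o 3)) with hw
  set nu : Fin 9 → Polynomial ℂ := fun k => Polynomial.X * Polynomial.C (D (Var.o (oIdx k)))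
    with hnu
  set a : Fin 4 → Fin 2 → Polynomial ℂ := aOf xi Y (fun r => Polynomial.C (β r)) with ha
  have hY0 : ∀ s c, (Y s c).coeff 0 = 0 := fun s c => by simp [hY]
  have hxi0 : ∀ c, (xi c).coeff 0 = 0 := fun c => by simp [hxi]
  have heta0 : ∀ r s, (eta xi Y r s).coeff 0 = 0 := by
    intro r s
    simp only [eta, Polynomial.coeff_sub, hY0, Polynomial.finsetSum_coeff]
    rw [Finset.sum_eq_zero, sub_zero]
    intro c _
    split_ifs <;> simp [Polynomial.mul_coeff_zero, hY0]
  have heta1 : ∀ r s, (eta xi Y r s).coeff 1 = D (Var.z s) := by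
    intro r s
    simp only [eta, Polynomial.coeff_sub, Polynomial.finsetSum_coeff]
    rw [Finset.sum_eq_zero, sub_zero]
    · simp [hY]
    intro c _
    split_ifs <;> simp [Polynomial.mul_coeff_one, hY0, hxi0]
  refine dir_general hφ hI xi Y w a nu hxi0 hY0 (by simp [hw]) ?_ (fun k => by simp [hnu]) ?_ D ?_
  · intro r s
    simp only [ha, aOf]
    split_ifs <;> simp [heta0]
  · intro t _
    refine ⟨β, fun r s => ?_⟩
    have := aOf_map (Polynomial.evalRingHom t) xi Y (fun r => Polynomial.C (β r)) r s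
    refine Eq.trans this ?_
    simp
  · intro v
    rcases v with s | ⟨r, s⟩ | c | ⟨s, c⟩ | k
    · simp [dirOf, hY]
    · fin_cases s
      · simp [dirOf, ha, aOf_zero, heta1, (hβ r).1]
      · simp [dirOf, ha, aOf_one, heta1, (hβ r).2]
    · simp [dirOf, hxi]
    · simp [dirOf, hY]
    · fin_cases k <;> simp [dirOf, hnu, hw, oIdx]

theorem dir_b {φ : MvPolynomial Var ℂ} {i : ℕ} (hφ : φ.IsHomogeneous i)
    (hI : rename toP φ ∈ schubertIdeal v10 w10 ⊔ originIdeal 10 ^ (i + 1)) (D : Var → ℂ)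
    (hz0 : D (Var.z 0) = 0) (hz1 : D (Var.z 1) = 0)
    (hD : ∃ (β : Fin 4 → ℂ) (ζ : Fin 2 → ℂ), ∀ r,
        D (Var.A r 0) = β r * (ζ 1 - ∑ c : Fin 3,
          if c.val + r.val < 3 then D (Var.xi c) * D (Var.Y 1 c) else 0) ∧
        D (Var.A r 1) = -(β r * (ζ 0 - ∑ c : Fin 3,
          if c.val + r.val < 3 then D (Var.xi c) * D (Var.Y 0 c) else 0))) : eval D φ = 0 := by
  obtain ⟨β, ζ, hβ⟩ := hD
  set xi : Fin 3 → Polynomial ℂ := fun c => Polynomial.X * Polynomial.C (D (Var.xi c)) with hxi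
  set Y : Fin 2 → Fin 4 → Polynomial ℂ := fun s c => Polynomial.X *
    (Fin.cases (Polynomial.X * Polynomial.C (ζ s)) (fun c => Polynomial.C (D (Var.Y s c))) c :
      Polynomial ℂ) with hY
  set w : Polynomial ℂ := Polynomial.X * Polynomial.C (D (Var.o 3)) with hw
  set nu : Fin 9 → Polynomial ℂ := fun k => Polynomial.X * Polynomial.C (D (Var.o (oIdx k)))
    with hnu
  set a : Fin 4 → Fin 2 → Polynomial ℂ := fun r s => Polynomial.X * Polynomial.C (D (Var.A r s))
    with ha
  have hY0 : ∀ s c, (Y s c).coeff 0 = 0 := fun s c => by simp [hY]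
  have hxi0 : ∀ c, (xi c).coeff 0 = 0 := fun c => by simp [hxi]
  refine dir_general hφ hI xi Y w a nu hxi0 hY0 (by simp [hw]) (fun r s => by simp [ha])
    (fun k => by simp [hnu]) ?_ D ?_
  · intro t ht
    refine ⟨fun r => β r / t, fun r s => ?_⟩
    have heta : ∀ s, eta (fun c => (xi c).eval t) (fun s c => (Y s c).eval t) r s =
        t ^ 2 * (ζ s - ∑ c : Fin 3,
          if c.val + r.val < 3 then D (Var.xi c) * D (Var.Y s c) else 0) := by
      intro s
      simp only [eta, hxi, hY, Polynomial.eval_mul, Polynomial.eval_X, Polynomial.eval_C,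
        Fin.cases_zero, Fin.cases_succ]
      rw [mul_sub, Finset.mul_sum]
      congr 1
      · ring
      · refine Finset.sum_congr rfl fun c _ => ?_
        split_ifs
        · ring
        · ring
    fin_cases s
    · show (a r 0).eval t = aOf _ _ _ r 0
      rw [aOf_zero, heta]
      simp only [ha, Polynomial.eval_mul, Polynomial.eval_X, Polynomial.eval_C, (hβ r).1]
      field_simp
    · show (a r 1).eval t = aOf _ _ _ r 1
      rw [aOf_one, heta]
      simp only [ha, Polynomial.eval_mul, Polynomial.eval_X, Polynomial.eval_C, (hβ r).2]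
      field_simp
  · intro v
    rcases v with s | ⟨r, s⟩ | c | ⟨s, c⟩ | k
    · fin_cases s <;> simp [dirOf, hY, hz0, hz1]
    · simp [dirOf, ha]
    · simp [dirOf, hxi]
    · simp [dirOf, hY]
    · fin_cases k <;> simp [dirOf, hnu, hw, oIdx]

end Pool.Agent.Helper66.Ebba
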