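import Mathlib
import Pool.Agent.Helper66.EbbaDir3

namespace Pool.Agent.Helper66.Ebba

open Matrix MvPolynomial

/-- the coordinate ring -/
abbrev S10 := MvPolynomial (Pos 10) ℂ

/-- generic unitriangular matrix -/
noncomputable def UU : Matrix (Fin 10) (Fin 10) S10 := lowerUni (fun p => X p)

/-- its inverse -/
noncomputable def VV : Matrix (Fin 10) (Fin 10) S10 := UU.adjugate

theorem LU.det_eq_one {n : ℕ} {R : Type*} [CommRing R] {M : Matrix (Fin n) (Fin n) R} (h : LU M) :
    M.det = 1 := by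
  have h1 : M.BlockTriangular OrderDual.toDual := fun i j hij => h.1 i j hij
  rw [Matrix.det_of_isLowerTriangular M h1]
  exact Finset.prod_eq_one fun i _ => h.2 i

theorem UU_LU : LU UU := lowerUni_LU _

theorem UU_mul_VV : UU * VV = 1 := by
  unfold VV
  rw [Matrix.mul_adjugate, UU_LU.det_eq_one, one_smul]

theorem eval_UU (x : Pos 10 → ℂ) : UU.map (eval x) = lowerUni x := by
  ext i j
  simp only [UU, Matrix.map_apply, lowerUni]
  split_ifs <;> simp

theorem eval_VV (x : Pos 10 → ℂ) : VV.map (eval x) = (lowerUni x)⁻¹ := by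
  symm
  apply Matrix.inv_eq_right_inv
  rw [← eval_UU]
  have := congrArg (fun M => M.map (eval x)) UU_mul_VV
  simp only [Matrix.map_mul] at this
  rw [this]
  simp

theorem v10_symm (i : Fin 10) : v10.symm i = v10 i := by rw [Equiv.symm_apply_eq, v10_v10]

theorem UU_mem {i j : Fin 10} (h : j.val + 5 < (v10 i).val) :
    UU i j ∈ schubertIdeal v10 w10 := by
  rw [mem_schubertIdeal]
  intro x hx
  have h1 : (permMat v10 * lowerUni x) (v10 i) j = 0 := cell_zero hx h
  rw [permMat_mul_apply, v10_symm, v10_v10, ← eval_UU] at h1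
  exact h1

theorem VV_mem {i j : Fin 10} (h : (v10 j).val + 5 < i.val) :
    VV i j ∈ schubertIdeal v10 w10 := by
  rw [mem_schubertIdeal]
  intro x hx
  have h1 : (permMat v10 * lowerUni x)⁻¹ i (v10 j) = 0 := cell_zero (cell_inv hx) h
  have hv : (permMat v10)⁻¹ = permMat v10 := Matrix.inv_eq_right_inv permMat_v_mul_self
  rw [Matrix.mul_inv_rev, hv, mul_permMat_apply, v10_v10, ← eval_VV] at h1
  exact h1

/-- strictly lower triangular part -/
noncomputable def NN : Matrix (Fin 10) (Fin 10) S10 := UU - 1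

theorem NN_apply (i j : Fin 10) : NN i j = if h : j < i then X ⟨(i, j), h⟩ else 0 := by
  unfold NN
  rw [Matrix.sub_apply, Matrix.one_apply]
  have hU : UU i j = if h : j < i then (X ⟨(i, j), h⟩ : S10) else if i = j then 1 else 0 := rfl
  rw [hU]
  by_cases h1 : j < i
  · simp [h1, h1.ne']
  · by_cases h2 : i = j
    · simp [h2]
    · simp [h1, h2]

theorem NN_eq (p : Pos 10) {i j : Fin 10} (hi : p.1.1 = i) (hj : p.1.2 = j) : NN i j = X p := by
  subst hi hj
  rw [NN_apply, dif_pos p.2]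

theorem VV_expand0 : VV = 1 - NN * VV := by
  have h : NN * VV = 1 - VV := by
    unfold NN
    rw [Matrix.sub_mul, UU_mul_VV, Matrix.one_mul]
  rw [h]
  abel

theorem VV_expand1 : VV = 1 - NN + NN * NN * VV := by
  have h := VV_expand0
  calc VV = 1 - NN * VV := h
    _ = 1 - NN * (1 - NN * VV) := congrArg (fun M => 1 - NN * M) h
    _ = _ := by
      rw [Matrix.mul_sub, Matrix.mul_one, Matrix.mul_assoc]
      abel

theorem VV_expand2 : VV = 1 - NN + NN * NN - NN * NN * NN * VV := by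
  have h := VV_expand0
  calc VV = 1 - NN + NN * NN * VV := VV_expand1
    _ = 1 - NN + NN * NN * (1 - NN * VV) := congrArg (fun M => 1 - NN + NN * NN * M) h
    _ = _ := by
      rw [Matrix.mul_sub, Matrix.mul_one, Matrix.mul_assoc (NN * NN)]
      abel

theorem X_mem_origin (p : Pos 10) : (X p : S10) ∈ originIdeal 10 := by
  rw [RingHom.mem_ker, constantCoeff_X]

theorem NN_mem (i j : Fin 10) : NN i j ∈ originIdeal 10 := by
  rw [NN_apply]
  split_ifs
  · exact X_mem_origin _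
  · exact Ideal.zero_mem _

theorem NN2_mem (i j : Fin 10) : (NN * NN) i j ∈ originIdeal 10 ^ 2 := by
  rw [Matrix.mul_apply, sq]
  exact Ideal.sum_mem _ fun k _ => Ideal.mul_mem_mul (NN_mem _ _) (NN_mem _ _)

theorem NN2V_mem (i j : Fin 10) : (NN * NN * VV) i j ∈ originIdeal 10 ^ 2 := by
  rw [Matrix.mul_apply]
  exact Ideal.sum_mem _ fun k _ => Ideal.mul_mem_right _ _ (NN2_mem _ _)

theorem NN3V_mem (i j : Fin 10) : (NN * NN * NN * VV) i j ∈ originIdeal 10 ^ 3 := by
  rw [Matrix.mul_apply]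
  refine Ideal.sum_mem _ fun k _ => Ideal.mul_mem_right _ _ ?_
  rw [Matrix.mul_apply, pow_succ]
  exact Ideal.sum_mem _ fun k _ => Ideal.mul_mem_mul (NN2_mem _ _) (NN_mem _ _)

theorem L_mem_I {r c : Fin 4} (h : r.val + c.val ≤ 3) :
    (X (toL r c) : S10) ∈ schubertIdeal v10 w10 := by
  have h1 : UU (toL r c).1.1 (toL r c).1.2 ∈ schubertIdeal v10 w10 := by
    apply UU_mem
    revert h
    revert r c
    decide
  have h2 : UU (toL r c).1.1 (toL r c).1.2 = X (toL r c) := by
    unfold UU lowerUni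
    rw [dif_pos (toL r c).2]
  rwa [h2] at h1

theorem L_mem (r c : Fin 4) : (X (toL r c) : S10) ∈ schubertIdeal v10 w10 ⊔ originIdeal 10 ^ 2 := by
  by_cases h : r.val + c.val ≤ 3
  · exact Ideal.mem_sup_left (L_mem_I h)
  · have h1 : VV (toL r c).1.1 (toL r c).1.2 ∈ schubertIdeal v10 w10 := by
      apply VV_mem
      revert h
      revert r c
      decide
    have h3 : NN (toL r c).1.1 (toL r c).1.2 = X (toL r c) := by
      rw [NN_apply, dif_pos (toL r c).2]
    have h4 : (1 : Matrix (Fin 10) (Fin 10) S10) (toL r c).1.1 (toL r c).1.2 = 0 :=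
      Matrix.one_apply_ne (ne_of_gt (toL r c).2)
    have h2 := congrFun (congrFun VV_expand1 (toL r c).1.1) (toL r c).1.2
    rw [Matrix.add_apply, Matrix.sub_apply, h3, h4] at h2
    have h5 : (X (toL r c) : S10) = -VV (toL r c).1.1 (toL r c).1.2 +
        (NN * NN * VV) (toL r c).1.1 (toL r c).1.2 := by
      rw [h2]; ring
    rw [h5]
    exact Ideal.add_mem _ (Ideal.mem_sup_left (neg_mem h1))
      (Ideal.mem_sup_right (NN2V_mem _ _))

theorem mul_mem_J {f g : S10} {a b c : ℕ} (hf : f ∈ schubertIdeal v10 w10 ⊔ originIdeal 10 ^ a)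
    (hg : g ∈ originIdeal 10 ^ b) (hc : c ≤ a + b) :
    f * g ∈ schubertIdeal v10 w10 ⊔ originIdeal 10 ^ c := by
  obtain ⟨f1, hf1, f2, hf2, rfl⟩ := Submodule.mem_sup.mp hf
  rw [add_mul]
  refine Ideal.add_mem _ (Ideal.mem_sup_left (Ideal.mul_mem_right _ _ hf1))
    (Ideal.mem_sup_right ?_)
  have : f2 * g ∈ originIdeal 10 ^ (a + b) := by
    rw [pow_add]
    exact Ideal.mul_mem_mul hf2 hg
  exact Ideal.pow_le_pow_right hc this

theorem q_mem (r : Fin 4) :
    (X (toP (Var.A r 0)) * X (toP (Var.z 0)) + X (toP (Var.A r 1)) * X (toP (Var.z 1)) : S10) ∈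
      schubertIdeal v10 w10 ⊔ originIdeal 10 ^ 3 := by
  set J := schubertIdeal v10 w10 ⊔ originIdeal 10 ^ 3 with hJ
  set i : Fin 10 := ⟨6 + r.val, by omega⟩ with hi
  have h1 : VV i 0 ∈ schubertIdeal v10 w10 := by
    apply VV_mem
    show (v10 0).val + 5 < 6 + r.val
    have : (v10 0).val = 0 := by decide
    omega
  have h2 := congrFun (congrFun VV_expand2 i) 0
  rw [Matrix.sub_apply, Matrix.add_apply, Matrix.sub_apply] at h2
  have h4 : (1 : Matrix (Fin 10) (Fin 10) S10) i 0 = 0 := by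
    apply Matrix.one_apply_ne
    intro h
    have := congrArg Fin.val h
    simp [hi] at this
  have h3 : NN i 0 = X (toL r 0) :=
    NN_eq (toL r 0) rfl rfl
  rw [h4, h3] at h2
  have h5 : (NN * NN) i 0 ∈ J := by
    have : (NN * NN) i 0 = VV i 0 + X (toL r 0) + (NN * NN * NN * VV) i 0 := by
      rw [h2]; ring
    rw [this]
    refine Ideal.add_mem _ (Ideal.add_mem _ (Ideal.mem_sup_left h1) (Ideal.mem_sup_left ?_))
      (Ideal.mem_sup_right (NN3V_mem _ _))
    exact L_mem_I (by simp; omega)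
  rw [Matrix.mul_apply] at h5
  have hrest : ∀ k : Fin 10, k ≠ 4 → k ≠ 5 → NN i k * NN k 0 ∈ J := by
    intro k hk4 hk5
    by_cases hk : k.val < 4
    · have h6 : NN i k = X (toL r ⟨k.val, hk⟩) :=
        NN_eq (toL r ⟨k.val, hk⟩) rfl rfl
      rw [h6]
      exact mul_mem_J (a := 2) (b := 1) (L_mem _ _) (by rw [pow_one]; exact NN_mem _ _) le_rfl
    · have hk6 : 6 ≤ k.val := by
        have h7 : k.val ≠ 4 := fun h => hk4 (Fin.ext h)
        have h8 : k.val ≠ 5 := fun h => hk5 (Fin.ext h)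
        omega
      have h6 : NN k 0 = X (toL ⟨k.val - 6, by omega⟩ 0) := by
        refine NN_eq (toL ⟨k.val - 6, by omega⟩ 0) ?_ rfl
        apply Fin.ext
        show 6 + (k.val - 6) = k.val
        omega
      rw [h6]
      exact Ideal.mem_sup_left (Ideal.mul_mem_left _ _ (L_mem_I (by simp; omega)))
  have h45 : ∑ k, NN i k * NN k 0 = NN i 4 * NN 4 0 + NN i 5 * NN 5 0 +
      ∑ k ∈ Finset.univ.filter (fun k : Fin 10 => k ≠ 4 ∧ k ≠ 5), NN i k * NN k 0 := by
    have e1 : (Finset.univ : Finset (Fin 10)) = {4, 5} ∪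
        Finset.univ.filter (fun k : Fin 10 => k ≠ 4 ∧ k ≠ 5) := by decide
    conv_lhs => rw [e1]
    rw [Finset.sum_union, Finset.sum_pair (by decide)]
    decide
  have e4 : NN i 4 = X (toP (Var.A r 0)) :=
    NN_eq (toP (Var.A r 0)) rfl rfl
  have e5 : NN i 5 = X (toP (Var.A r 1)) :=
    NN_eq (toP (Var.A r 1)) rfl rfl
  have e6 : NN 4 0 = X (toP (Var.z 0)) :=
    NN_eq (toP (Var.z 0)) rfl rfl
  have e7 : NN 5 0 = X (toP (Var.z 1)) :=
    NN_eq (toP (Var.z 1)) rfl rfl
  rw [h45] at h5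
  have h9 : ∑ k ∈ Finset.univ.filter (fun k : Fin 10 => k ≠ 4 ∧ k ≠ 5), NN i k * NN k 0 ∈ J :=
    Ideal.sum_mem _ fun k hk => by
      rw [Finset.mem_filter] at hk
      exact hrest k hk.2.1 hk.2.2
  have h10 := (Ideal.add_mem_iff_left J h9).mp h5
  rw [← e4, ← e5, ← e6, ← e7]
  exact h10

end Pool.Agent.Helper66.Ebba
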