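import Mathlib
import Pool.Agent.Helper66.EbbaIdeal

namespace Pool.Agent.Helper66.Ebba

open Matrix MvPolynomial

theorem origin_eq (n : ℕ) : originIdeal n = idealOfVars (Pos n) ℂ := by
  ext f
  rw [RingHom.mem_ker, ← pow_one (idealOfVars (Pos n) ℂ), mem_pow_idealOfVars_iff']
  constructor
  · intro h x hx
    have h0 : x.degree = 0 := by omega
    have : x = 0 := (Finsupp.degree_eq_zero_iff x).mp h0
    subst this
    exact h
  · intro h
    exact h 0 (by simp)

theorem homog_mem {f : S10} {i : ℕ} (hf : f.IsHomogeneous i) : f ∈ originIdeal 10 ^ i := by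
  rw [origin_eq, mem_pow_idealOfVars_iff']
  intro x hx
  exact hf.coeff_eq_zero hx.ne

/-- The monomial in the chart ring -/
noncomputable def Mo (m : Var →₀ ℕ) : S10 := rename toP (monomial m 1)

theorem Mo_add (m m' : Var →₀ ℕ) : Mo (m + m') = Mo m * Mo m' := by
  unfold Mo
  rw [← map_mul, monomial_mul, one_mul]

theorem Mo_single (v : Var) : Mo (Finsupp.single v 1) = X (toP v) := by
  have : (monomial (Finsupp.single v 1) 1 : MvPolynomial Var ℂ) = X v := rfl
  unfold Mo
  rw [this, rename_X]

theorem Mo_mem (m : Var →₀ ℕ) : Mo m ∈ originIdeal 10 ^ m.degree :=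
  homog_mem ((isHomogeneous_monomial 1 rfl).rename_isHomogeneous)

/-- weights for termination -/
def wt : Var → ℕ
  | Var.z s => if s = 0 then 1 else 0
  | Var.A r s => if s = 0 then r.val + 1 else 0
  | _ => 0

/-- termination measure -/
def mu (m : Var →₀ ℕ) : ℕ := ∑ v, m v * wt v

theorem mu_add (m m' : Var →₀ ℕ) : mu (m + m') = mu m + mu m' := by
  simp only [mu, Finsupp.add_apply, add_mul, Finset.sum_add_distrib]

theorem mu_single (v : Var) : mu (Finsupp.single v 1) = wt v := by
  unfold mu
  rw [Finset.sum_eq_single v]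
  · simp
  · intro b _ hb
    simp [hb.symm]
  · simp

/-- the span of the standard monomials -/
noncomputable def Wsp (i : ℕ) : Submodule ℂ S10 :=
  Submodule.span ℂ (Mo '' {m | m.degree = i ∧ Std m}) ⊔
    (schubertIdeal v10 w10 ⊔ originIdeal 10 ^ (i + 1)).restrictScalars ℂ

theorem J_le_Wsp {i : ℕ} {f : S10} (hf : f ∈ schubertIdeal v10 w10 ⊔ originIdeal 10 ^ (i + 1)) :
    f ∈ Wsp i := Submodule.mem_sup_right hf

theorem Mo_mem_Wsp (i : ℕ) : ∀ (n : ℕ) (m : Var →₀ ℕ), mu m = n → m.degree = i → Mo m ∈ Wsp i := by
  intro n
  induction n using Nat.strong_induction_on with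
  | _ n ih =>
    intro m hn hi
    by_cases hstd : Std m
    · exact Submodule.mem_sup_left (Submodule.subset_span ⟨m, ⟨hi, hstd⟩, rfl⟩)
    · have hcase : (∃ r, m (Var.A r 0) ≠ 0 ∧ m (Var.z 0) ≠ 0) ∨
          (∃ r r', r < r' ∧ m (Var.z 1) ≠ 0 ∧ m (Var.A r 1) ≠ 0 ∧ m (Var.A r' 0) ≠ 0) := by
        unfold Std at hstd
        rw [not_and_or] at hstd
        push Not at hstd
        exact hstd
      rcases hcase with ⟨r, h1, h2⟩ | ⟨r, r', hr, h1, h2, h3⟩
      · set e : Var →₀ ℕ := Finsupp.single (Var.A r 0) 1 + Finsupp.single (Var.z 0) 1 with he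
        have hle : e ≤ m := by
          intro v
          simp only [he, Finsupp.add_apply, Finsupp.single_apply]
          by_cases hv1 : Var.A r 0 = v
          · subst hv1
            simp
            omega
          · by_cases hv2 : Var.z 0 = v
            · subst hv2
              simp
              omega
            · simp [hv1, hv2]
        obtain ⟨m', rfl⟩ := exists_add_of_le hle
        set e2 : Var →₀ ℕ := Finsupp.single (Var.A r 1) 1 + Finsupp.single (Var.z 1) 1 with he2
        have hd : e.degree = 2 := by simp [he]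
        have hd2 : e2.degree = 2 := by simp [he2]
        have hmu : mu e = r.val + 2 := by
          rw [he, mu_add, mu_single, mu_single]
          simp [wt]
        have hmu2 : mu e2 = 0 := by
          rw [he2, mu_add, mu_single, mu_single]
          simp [wt]
        rw [map_add, hd] at hi
        rw [mu_add, hmu] at hn
        have h3 : Mo (e2 + m') ∈ Wsp i := by
          refine ih (mu (e2 + m')) ?_ _ rfl ?_
          · rw [mu_add, hmu2]; omega
          · rw [map_add, hd2]; exact hi
        have h4 : Mo (e + m') + Mo (e2 + m') ∈ Wsp i := by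
          apply J_le_Wsp
          have h5 : Mo (e + m') + Mo (e2 + m') =
              (X (toP (Var.A r 0)) * X (toP (Var.z 0)) + X (toP (Var.A r 1)) * X (toP (Var.z 1))) *
                Mo m' := by
            rw [he, he2, Mo_add, Mo_add, Mo_add, Mo_add, Mo_single, Mo_single, Mo_single, Mo_single]
            ring
          rw [h5]
          exact mul_mem_J (q_mem r) (Mo_mem m') (by omega)
        have h6 := Submodule.sub_mem _ h4 h3
        rwa [add_sub_cancel_right] at h6
      · set e : Var →₀ ℕ := Finsupp.single (Var.z 1) 1 + Finsupp.single (Var.A r 1) 1 +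
          Finsupp.single (Var.A r' 0) 1 with he
        have hle : e ≤ m := by
          intro v
          simp only [he, Finsupp.add_apply, Finsupp.single_apply]
          by_cases hv1 : Var.A r 1 = v
          · subst hv1
            simp
            omega
          · by_cases hv2 : Var.A r' 0 = v
            · subst hv2
              simp
              omega
            · by_cases hv3 : Var.z 1 = v
              · subst hv3
                simp
                omega
              · simp [hv1, hv2, hv3]
        obtain ⟨m', rfl⟩ := exists_add_of_le hle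
        set e2 : Var →₀ ℕ := Finsupp.single (Var.z 1) 1 + Finsupp.single (Var.A r 0) 1 +
          Finsupp.single (Var.A r' 1) 1 with he2
        have hd : e.degree = 3 := by simp [he]
        have hd2 : e2.degree = 3 := by simp [he2]
        have hmu : mu e = r'.val + 1 := by
          rw [he, mu_add, mu_add, mu_single, mu_single, mu_single]
          simp [wt]
        have hmu2 : mu e2 = r.val + 1 := by
          rw [he2, mu_add, mu_add, mu_single, mu_single, mu_single]
          simp [wt]
        rw [map_add, hd] at hi
        rw [mu_add, hmu] at hn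
        have hr' : r.val < r'.val := hr
        have h3 : Mo (e2 + m') ∈ Wsp i := by
          refine ih (mu (e2 + m')) ?_ _ rfl ?_
          · rw [mu_add, hmu2]; omega
          · rw [map_add, hd2]; exact hi
        have h4 : Mo (e + m') - Mo (e2 + m') ∈ Wsp i := by
          apply J_le_Wsp
          have h5 : Mo (e + m') - Mo (e2 + m') =
              (X (toP (Var.A r 0)) * X (toP (Var.z 0)) + X (toP (Var.A r 1)) * X (toP (Var.z 1))) *
                (X (toP (Var.A r' 0)) * Mo m') -
              (X (toP (Var.A r' 0)) * X (toP (Var.z 0)) + X (toP (Var.A r' 1)) * X (toP (Var.z 1))) *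
                (X (toP (Var.A r 0)) * Mo m') := by
            rw [he, he2, Mo_add, Mo_add, Mo_add, Mo_add, Mo_add, Mo_add, Mo_single, Mo_single,
              Mo_single, Mo_single, Mo_single]
            ring
          rw [h5]
          have h7 : ∀ v, X (toP v) * Mo m' ∈ originIdeal 10 ^ (1 + m'.degree) := by
            intro v
            rw [pow_add, pow_one]
            exact Ideal.mul_mem_mul (X_mem_origin _) (Mo_mem m')
          refine Ideal.sub_mem _ ?_ ?_
          · exact mul_mem_J (q_mem r) (h7 _) (by omega)
          · exact mul_mem_J (q_mem r') (h7 _) (by omega)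
        have h6 := Submodule.add_mem _ h4 h3
        rwa [sub_add_cancel] at h6

theorem monomial_mem_Wsp {i : ℕ} (d : Pos 10 →₀ ℕ) (hd : d.degree = i) :
    (monomial d 1 : S10) ∈ Wsp i := by
  by_cases h : ∃ r c, d (toL r c) ≠ 0
  · obtain ⟨r, c, hrc⟩ := h
    have hle : Finsupp.single (toL r c) 1 ≤ d := by
      rw [Finsupp.single_le_iff]
      omega
    obtain ⟨d', rfl⟩ := exists_add_of_le hle
    rw [map_add, Finsupp.degree_single] at hd
    apply J_le_Wsp
    have h1 : (monomial (Finsupp.single (toL r c) 1 + d') 1 : S10) =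
        X (toL r c) * monomial d' 1 := by
      rw [← one_mul (1 : ℂ), ← monomial_mul]
      simp [X]
    rw [h1]
    refine mul_mem_J (b := d'.degree) (L_mem r c) ?_ (by omega)
    exact homog_mem (isHomogeneous_monomial 1 rfl)
  · push Not at h
    have hinj : Set.InjOn toP (toP ⁻¹' ↑d.support) := toP_inj.injOn
    set m := d.comapDomain toP hinj with hm
    have hmd : m.mapDomain toP = d := by
      apply Finsupp.mapDomain_comapDomain _ toP_inj
      intro p hp
      rcases toP_or_toL p with h1 | ⟨r, c, rfl⟩
      · exact h1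
      · exfalso
        rw [Finset.mem_coe, Finsupp.mem_support_iff] at hp
        exact hp (h r c)
    have h1 : (monomial d 1 : S10) = Mo m := by
      unfold Mo
      rw [rename_monomial, hmd]
    rw [h1]
    refine Mo_mem_Wsp i (mu m) m rfl ?_
    have h2 : (monomial m (1 : ℂ)).IsHomogeneous m.degree := isHomogeneous_monomial 1 rfl
    have h3 := h2.rename_isHomogeneous (f := toP)
    have h4 : (monomial d (1 : ℂ)).IsHomogeneous i := isHomogeneous_monomial 1 hd
    rw [h1] at h4
    exact h3.inj_right h4 (by
      rw [rename_monomial, Ne, monomial_eq_zero]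
      exact one_ne_zero)

theorem mem_Wsp {i : ℕ} {f : S10} (hf : f ∈ originIdeal 10 ^ i) : f ∈ Wsp i := by
  rw [origin_eq, mem_pow_idealOfVars_iff] at hf
  rw [f.as_sum]
  refine Submodule.sum_mem _ fun d hd => ?_
  have h1 : (monomial d (coeff d f) : S10) = coeff d f • monomial d 1 := by
    rw [smul_monomial, smul_eq_mul, mul_one]
  rw [h1]
  refine Submodule.smul_mem _ _ ?_
  rcases (hf d hd).lt_or_eq with h | h
  · apply J_le_Wsp
    refine Ideal.mem_sup_right ?_
    exact Ideal.pow_le_pow_right (show i + 1 ≤ d.degree from h)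
      (homog_mem (isHomogeneous_monomial 1 rfl))
  · exact monomial_mem_Wsp d h.symm

/-- index set of standard monomials of degree `i` -/
abbrev Idx (i : ℕ) : Type := {m // m ∈ ((Finset.univ : Finset Var).finsuppAntidiag i).filter Std}

theorem mem_finsuppAntidiag_univ {i : ℕ} {m : Var →₀ ℕ} :
    m ∈ (Finset.univ : Finset Var).finsuppAntidiag i ↔ m.degree = i := by
  rw [Finset.mem_finsuppAntidiag]
  simp [Finsupp.degree_eq_sum]

theorem hspan {i : ℕ} : ∀ f ∈ originIdeal 10 ^ i, ∃ c : Idx i → ℂ,
    f - ∑ b, c b • Mo b.1 ∈ schubertIdeal v10 w10 ⊔ originIdeal 10 ^ (i + 1) := by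
  intro f hf
  obtain ⟨g, hg, h, hh, hgh⟩ := Submodule.mem_sup.mp (mem_Wsp hf)
  have hset : Mo '' {m | m.degree = i ∧ Std m} = Set.range (fun b : Idx i => Mo b.1) := by
    ext x
    simp only [Set.mem_image, Set.mem_ofPred_eq, Set.mem_range, Subtype.exists, Finset.mem_filter,
      mem_finsuppAntidiag_univ, exists_prop]
  rw [hset, Submodule.mem_span_range_iff_exists_fun] at hg
  obtain ⟨c, hc⟩ := hg
  refine ⟨c, ?_⟩
  rw [hc, ← hgh, add_sub_cancel_left]
  exact hh

end Pool.Agent.Helper66.Ebba
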