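import Mathlib
import Pool.Agent.Helper66.EbbaSpan
import Pool.Agent.Helper97.EbbaK
import Pool.Agent.Helper59.EbbaG
import Pool.Agent.Helper52.EbbaC

namespace Pool.Agent.Helper66.Ebba

open Matrix MvPolynomial

theorem hind {i : ℕ} (hi : i ≤ 4) (c : Idx i → ℂ)
    (hc : ∑ b, c b • Mo b.1 ∈ schubertIdeal v10 w10 ⊔ originIdeal 10 ^ (i + 1)) : c = 0 := by
  classical
  set φ : MvPolynomial Var ℂ := ∑ b : Idx i, monomial b.1 (c b) with hφ
  have hren : rename toP φ = ∑ b, c b • Mo b.1 := by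
    rw [hφ, map_sum]
    refine Finset.sum_congr rfl fun b _ => ?_
    unfold Mo
    rw [← map_smul, smul_monomial, smul_eq_mul, mul_one]
  rw [← hren] at hc
  have hb : ∀ b : Idx i, b.1.degree = i ∧ Std b.1 := by
    intro b
    have := b.2
    rw [Finset.mem_filter, mem_finsuppAntidiag_univ] at this
    exact this
  have hhom : φ.IsHomogeneous i := by
    rw [hφ]
    exact IsHomogeneous.sum _ _ _ fun b _ => isHomogeneous_monomial _ (hb b).1
  have hcoeff : ∀ b : Idx i, coeff b.1 φ = c b := by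
    intro b
    rw [hφ, coeff_sum, Finset.sum_eq_single b]
    · rw [coeff_monomial, if_pos rfl]
    · intro b' _ hb'
      rw [coeff_monomial, if_neg]
      exact fun h => hb' (Subtype.ext h)
    · simp
  have hstd : ∀ m ∈ φ.support, Std m := by
    intro m hm
    by_contra hns
    rw [mem_support_iff] at hm
    apply hm
    rw [hφ, coeff_sum]
    refine Finset.sum_eq_zero fun b _ => ?_
    rw [coeff_monomial, if_neg]
    rintro rfl
    exact hns (hb b).2
  have h0 : φ = 0 := Pool.Agent.Helper97.Ebba.keyK φ i hi hhom hstd (fun D hD => dir_a hhom hc D hD)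
    (fun D h0 h1 hD => dir_b hhom hc D h0 h1 hD)
  funext b
  rw [← hcoeff b, h0]
  simp

theorem hres (s : S10) : ∃ c : ℂ, s - algebraMap ℂ S10 c ∈ originIdeal 10 := by
  refine ⟨constantCoeff s, ?_⟩
  rw [RingHom.mem_ker, map_sub, MvPolynomial.algebraMap_eq, constantCoeff_C, sub_self]

theorem gradedDim_eq {R : Type} [CommRing R] [Algebra ℂ R] (m : Ideal R) (i : ℕ) :
    gradedDim m i = Module.finrank ℂ (↥(m ^ i) ⧸
      Submodule.comap (Submodule.subtype (m ^ i)) (m ^ (i + 1))) := by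
  unfold gradedDim quotDim
  refine LinearEquiv.finrank_eq (LinearEquiv.trans (Submodule.Quotient.equiv _
    ((Submodule.comap (Submodule.subtype (m ^ i)) (m ^ (i + 1))).restrictScalars ℂ)
    ((Submodule.restrictScalarsEquiv ℂ R R (m ^ i)).restrictScalars ℂ) ?_)
    (Submodule.Quotient.restrictScalarsEquiv ℂ _))
  ext x
  simp only [Submodule.submoduleOf, Submodule.mem_map, Submodule.mem_comap,
    Submodule.restrictScalars_mem]
  constructor
  · rintro ⟨a, ha, rfl⟩
    exact ha
  · intro h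
    exact ⟨⟨x.1, x.2⟩, h, rfl⟩

theorem hilb_eq {i : ℕ} (hi : i ≤ 4) : hilb v10 w10 i =
    if i = 0 then 1 else if i = 1 then 29 else if i = 2 then 431 else if i = 3 then 4379
      else 34230 := by
  have h := Pool.Agent.Helper59.EbbaG.finrank_gr (originIdeal 10) hres (schubertIdeal v10 w10) i
    (fun b : Idx i => Mo b.1) (fun b => by
      have := b.2
      rw [Finset.mem_filter, mem_finsuppAntidiag_univ] at this
      have h2 := Mo_mem b.1
      rwa [this.1] at h2) (fun c hc => hind hi c hc) hspan _ rfl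
  have h2 : Fintype.card (Idx i) = _ := (Fintype.card_coe _).trans
    (Pool.Agent.Helper52.EbbaC.card_std i hi)
  rw [← h2]
  exact (gradedDim_eq _ i).trans h

theorem len_w10 : len w10 = 25 := by
  unfold len
  decide +kernel

theorem bruhat_v10_w10 : BruhatLE v10 w10 := by
  unfold BruhatLE
  decide +kernel

/-- coefficients of `(1-X)^25` -/
theorem coeff_pow25 (a : ℕ) : PowerSeries.coeff a ((1 - PowerSeries.X : PowerSeries ℤ) ^ 25) =
    (-1) ^ a * (Nat.choose 25 a : ℤ) := by
  have h : (1 - PowerSeries.X : PowerSeries ℤ) ^ 25 =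
      ((1 - Polynomial.X : Polynomial ℤ) ^ 25 : Polynomial ℤ) := by
    simp
  rw [h, Polynomial.coeff_coe]
  have h2 : (1 - Polynomial.X : Polynomial ℤ) ^ 25 =
      ((1 + Polynomial.X : Polynomial ℤ) ^ 25).comp (Polynomial.C (-1) * Polynomial.X) := by
    simp [sub_eq_add_neg]
  rw [h2, Polynomial.comp_C_mul_X_coeff, Polynomial.coeff_one_add_X_pow, mul_comm]

theorem hCoeff_eq (j : ℕ) : hCoeff v10 w10 j =
    ∑ p ∈ Finset.HasAntidiagonal.antidiagonal j, (-1) ^ p.1 * (Nat.choose 25 p.1 : ℤ) * (hilb v10 w10 p.2 : ℤ) := by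
  unfold hCoeff
  rw [len_w10, PowerSeries.coeff_mul]
  refine Finset.sum_congr rfl fun p _ => ?_
  rw [coeff_pow25, PowerSeries.coeff_mk]

theorem hilb0 : hilb v10 w10 0 = 1 := hilb_eq (by norm_num)
theorem hilb1 : hilb v10 w10 1 = 29 := hilb_eq (by norm_num)
theorem hilb2 : hilb v10 w10 2 = 431 := hilb_eq (by norm_num)
theorem hilb3 : hilb v10 w10 3 = 4379 := hilb_eq (by norm_num)
theorem hilb4 : hilb v10 w10 4 = 34230 := hilb_eq (by norm_num)

theorem hC0 : hCoeff v10 w10 0 = 1 := by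
  rw [hCoeff_eq]; simp [hilb0]
theorem hC1 : hCoeff v10 w10 1 = 4 := by
  rw [hCoeff_eq]
  simp [Finset.Nat.sum_antidiagonal_eq_sum_range_succ_mk, Finset.sum_range_succ, hilb0, hilb1]
theorem hC2 : hCoeff v10 w10 2 = 6 := by
  rw [hCoeff_eq]
  simp [Finset.Nat.sum_antidiagonal_eq_sum_range_succ_mk, Finset.sum_range_succ, hilb0, hilb1, hilb2,
    Nat.choose]
theorem hC3 : hCoeff v10 w10 3 = 4 := by
  rw [hCoeff_eq]
  simp [Finset.Nat.sum_antidiagonal_eq_sum_range_succ_mk, Finset.sum_range_succ, hilb0, hilb1, hilb2,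
    hilb3, Nat.choose]
theorem hC4 : hCoeff v10 w10 4 = 5 := by
  rw [hCoeff_eq]
  simp [Finset.Nat.sum_antidiagonal_eq_sum_range_succ_mk, Finset.sum_range_succ, hilb0, hilb1, hilb2,
    hilb3, hilb4, Nat.choose]

theorem not_unimodal : ¬ Unimodal (hCoeff v10 w10) := by
  rintro ⟨k, h1, h2⟩
  by_cases hk : k ≤ 3
  · have := h2 3 hk
    rw [hC3, hC4] at this
    norm_num at this
  · have := h1 2 (by omega)
    rw [hC2, hC3] at this
    norm_num at this

end Pool.Agent.Helper66.Ebba
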